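import Mathlib

/-! Dirichlet eigenvalues of `-y'' + V y` on `[0, L]` and potentials with at most `w` wells. -/

set_option autoImplicit false

namespace Pool.Agent.Lib.MP_6547d0_mp

/-- `μ` is a Dirichlet eigenvalue of `-y'' + V y` on `[0, L]`. -/
def IsEig (L : ℝ) (V : ℝ → ℝ) (μ : ℝ) : Prop :=
  ∃ y : ℝ → ℝ, ContinuousOn y (Set.Icc 0 L) ∧ y 0 = 0 ∧ y L = 0 ∧
    DifferentiableOn ℝ y (Set.Ioo 0 L) ∧ DifferentiableOn ℝ (deriv y) (Set.Ioo 0 L) ∧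
    (∀ x ∈ Set.Ioo 0 L, -deriv (deriv y) x + V x * y x = μ * y x) ∧
    ∃ x ∈ Set.Ioo 0 L, y x ≠ 0

/-- `a` is the `n`-th eigenvalue: it is an eigenvalue and exactly `n - 1` eigenvalues are
smaller. -/
def IsNth (L : ℝ) (V : ℝ → ℝ) (n : ℕ) (a : ℝ) : Prop :=
  IsEig L V a ∧ {μ | IsEig L V μ ∧ μ < a}.encard + 1 = n

/-- `[0, L]` splits into `w` consecutive (possibly degenerate) intervals on each of which `V`
is first nonincreasing and then nondecreasing. -/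
def Wells (w : ℕ) (L : ℝ) (V : ℝ → ℝ) : Prop :=
  ∃ b c : ℕ → ℝ, b 0 = 0 ∧ b w = L ∧ ∀ j < w, b j ≤ c j ∧ c j ≤ b (j + 1) ∧
    AntitoneOn V (Set.Icc (b j) (c j)) ∧ MonotoneOn V (Set.Icc (c j) (b (j + 1)))

end Pool.Agent.Lib.MP_6547d0_mp
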