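import Mathlib

/-! Fence lemma and scaled Pruefer phases. -/

set_option autoImplicit false

namespace Pool.Agent.Lib.MP_6547d0_mp

open Set Filter Topology Real

theorem fence {f : ℝ → ℝ} {a b K : ℝ} (hf : ContinuousOn f (Icc a b)) (ha : f a ≤ 0)
    (h : ∀ x ∈ Ico a b, 0 < f x → ∃ g : ℝ → ℝ, ∃ g' : ℝ, HasDerivAt g g' x ∧ g' ≤ K * f x ∧
      g x = f x ∧ ∀ᶠ y in 𝓝[>] x, f y ≤ g y) :
    ∀ x ∈ Icc a b, f x ≤ 0 := by
  have key : ∀ ε : ℝ, 0 < ε → ∀ x ∈ Icc a b, f x ≤ ε * exp ((K + 1) * (x - a)) := by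
    intro ε hε
    set B : ℝ → ℝ := fun x => ε * exp ((K + 1) * (x - a)) with hB
    have hBc : Continuous B := by rw [hB]; fun_prop
    have hcl : IsClosed ({x | f x ≤ B x} ∩ Icc a b) := by
      rw [inter_comm]
      exact (hf.prodMk hBc.continuousOn).preimage_isClosed_of_isClosed isClosed_Icc
        OrderClosedTopology.isClosed_le'
    have h0 : a ∈ {x | f x ≤ B x} := by
      have : 0 < B a := by rw [hB]; positivity
      exact le_trans ha this.le
    refine hcl.Icc_subset_of_forall_mem_nhdsWithin h0 ?_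
    rintro x ⟨hx, hxab⟩
    have hBpos : 0 < B x := by rw [hB]; positivity
    rcases (show f x ≤ B x from hx).lt_or_eq with hlt | heq
    · have hc : ContinuousWithinAt f (Ioi x) x :=
        (hf x (Ico_subset_Icc_self hxab)).mono_of_mem_nhdsWithin (Icc_mem_nhdsGT_of_mem hxab)
      have := Tendsto.eventually_lt hc (hBc.continuousAt.continuousWithinAt (s := Ioi x)) hlt
      exact this.mono fun y hy => hy.le
    · obtain ⟨g, g', hg, hg', hgx, hev⟩ := h x hxab (heq ▸ hBpos)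
      have hBd : HasDerivAt B (B x * (K + 1)) x := by
        have h1 : HasDerivAt (fun x => (K + 1) * (x - a)) (K + 1) x := by
          simpa using ((hasDerivAt_id x).sub_const a).const_mul (K + 1)
        have h2 := (h1.exp).const_mul ε
        rw [hB]
        simpa [mul_assoc] using h2
      have hd := hg.sub hBd
      have hneg : g' - B x * (K + 1) < 0 := by rw [heq] at hg'; nlinarith
      have hs := (hasDerivAt_iff_tendsto_slope.1 hd).eventually (gt_mem_nhds hneg)
      have hs' := hs.filter_mono (nhdsWithin_mono x (show Ioi x ⊆ {x}ᶜ from fun y hy => ne_of_gt hy))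
      filter_upwards [hs', hev, self_mem_nhdsWithin] with y hy hy2 hy3
      rw [slope_def_field] at hy
      have hpos : 0 < y - x := sub_pos.2 hy3
      have := (div_neg_iff.1 hy)
      simp only [Pi.sub_apply] at this
      show f y ≤ B y
      rcases this with h1 | h1
      · linarith [h1.2]
      · linarith [h1.1]
  intro x hx
  by_contra hpos
  push Not at hpos
  have hE : 0 < exp ((K + 1) * (x - a)) := exp_pos _
  have := key (f x / (2 * exp ((K + 1) * (x - a)))) (by positivity) x hx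
  have e : f x / (2 * exp ((K + 1) * (x - a))) * exp ((K + 1) * (x - a)) = f x / 2 := by
    field_simp
  linarith

/-- Smooth version of the fence lemma. -/
theorem fence' {f f' : ℝ → ℝ} {a b K : ℝ} (hf : ∀ x ∈ Icc a b, HasDerivAt f (f' x) x)
    (ha : f a ≤ 0) (h : ∀ x ∈ Ico a b, 0 < f x → f' x ≤ K * f x) :
    ∀ x ∈ Icc a b, f x ≤ 0 :=
  fence (K := K) (fun x hx => (hf x hx).continuousAt.continuousWithinAt) ha fun x hx hp =>
    ⟨f, f' x, hf x (Ico_subset_Icc_self hx), h x hx hp, rfl, Eventually.of_forall fun _ => le_rfl⟩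

theorem abs_sin_sq_sub (x y : ℝ) : |sin x ^ 2 - sin y ^ 2| ≤ |x - y| := by
  have e : sin x ^ 2 - sin y ^ 2 = sin (x + y) * sin (x - y) := by
    rw [sin_add, sin_sub]
    have h1 := sin_sq_add_cos_sq x
    have h2 := sin_sq_add_cos_sq y
    linear_combination (-(sin x) ^ 2) * h2 + (sin y) ^ 2 * h1
  rw [e, abs_mul]
  have h1 := abs_sin_le_one (x + y)
  have h2 : |sin (x - y)| ≤ |x - y| := abs_sin_le_abs
  nlinarith [abs_nonneg (sin (x + y)), abs_nonneg (sin (x - y))]

/-- `φ` solves the scaled Pruefer equation on `[a,b]`. -/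
def Ph (V : ℝ → ℝ) (z : ℝ) (φ : ℝ → ℝ) (a b : ℝ) : Prop :=
  ∀ x ∈ Icc a b, HasDerivAt φ (z - V x / z * sin (φ x) ^ 2) x

theorem Ph.mono {V φ : ℝ → ℝ} {z a b a' b' : ℝ} (h : Ph V z φ a b) (h1 : a ≤ a') (h2 : b' ≤ b) :
    Ph V z φ a' b' := fun x hx => h x ⟨h1.trans hx.1, hx.2.trans h2⟩

theorem Ph.cont {V φ : ℝ → ℝ} {z a b : ℝ} (h : Ph V z φ a b) : ContinuousOn φ (Icc a b) :=
  fun x hx => (h x hx).continuousAt.continuousWithinAt

theorem sin_sq_sub_nat (x : ℝ) (j : ℕ) : sin (x - j * π) ^ 2 = sin x ^ 2 := by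
  rw [sin_sub_nat_mul_pi, mul_pow, ← pow_mul, mul_comm j 2, pow_mul]
  simp

theorem Ph.shift {V φ : ℝ → ℝ} {z a b : ℝ} (h : Ph V z φ a b) (j : ℕ) :
    Ph V z (fun x => φ x - j * π) a b := fun x hx => by
  rw [sin_sq_sub_nat]
  exact (h x hx).sub_const _

theorem Ph.refl {V φ : ℝ → ℝ} {z a b : ℝ} (h : Ph V z φ a b) (j : ℕ) :
    Ph (fun x => V (-x)) z (fun x => j * π - φ (-x)) (-b) (-a) := fun x hx => by
  have h1 := h (-x) ⟨by linarith [hx.2], by linarith [hx.1]⟩
  have h2 := (h1.comp x (hasDerivAt_neg x)).const_sub (j * π)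
  have e : sin (j * π - φ (-x)) ^ 2 = sin (φ (-x)) ^ 2 := by
    rw [← sin_sq_sub_nat (φ (-x)) j, ← neg_sub, sin_neg, neg_sq]
  rw [e]
  simpa using h2

/-- bounds on the potential -/
def Bd (V : ℝ → ℝ) (M : ℝ) : Prop := Continuous V ∧ ∀ x, 0 ≤ V x ∧ V x ≤ M

theorem Bd.refl {V : ℝ → ℝ} {M : ℝ} (h : Bd V M) : Bd (fun x => V (-x)) M :=
  ⟨h.1.comp continuous_neg, fun _ => h.2 _⟩

theorem Bd.lip {V : ℝ → ℝ} {M z : ℝ} (h : Bd V M) (hz : 0 < z) (x s t : ℝ) :
    V x / z * (sin s ^ 2 - sin t ^ 2) ≤ M / z * |s - t| := by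
  have h1 := abs_sin_sq_sub s t
  have h2 := le_abs_self (sin s ^ 2 - sin t ^ 2)
  have h3 : V x / z ≤ M / z := div_le_div_of_nonneg_right (h.2 x).2 hz.le
  have h4 : 0 ≤ V x / z := div_nonneg (h.2 x).1 hz.le
  calc V x / z * (sin s ^ 2 - sin t ^ 2) ≤ V x / z * |s - t| :=
        mul_le_mul_of_nonneg_left (h2.trans h1) h4
    _ ≤ M / z * |s - t| := mul_le_mul_of_nonneg_right h3 (abs_nonneg _)

/-- a phase never drops below a multiple of pi that it has reached -/
theorem Ph.up {V φ : ℝ → ℝ} {M z a b : ℝ} (hV : Bd V M) (hz : 0 < z) (h : Ph V z φ a b) (j : ℕ)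
    {x y : ℝ} (hx : a ≤ x) (hxy : x ≤ y) (hy : y ≤ b) (h0 : j * π ≤ φ x) : j * π ≤ φ y := by
  have h' := h.mono hx hy
  have := fence' (K := M / z) (f := fun x => j * π - φ x)
    (fun t ht => (h' t ht).const_sub (j * π)) (by simpa using h0) (fun t _ hp => by
      have h1 := hV.lip hz t (φ t) (j * π)
      rw [sin_nat_mul_pi, abs_sub_comm, abs_of_pos hp] at h1
      simp only [ne_eq, OfNat.ofNat_ne_zero, not_false_eq_true, zero_pow, sub_zero] at h1
      linarith) y ⟨hxy, le_rfl⟩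
  simpa using this

theorem Ph.down {V φ : ℝ → ℝ} {M z a b : ℝ} (hV : Bd V M) (hz : 0 < z) (h : Ph V z φ a b) (j : ℕ)
    {x y : ℝ} (hx : a ≤ x) (hxy : x ≤ y) (hy : y ≤ b) (h0 : φ y ≤ j * π) : φ x ≤ j * π := by
  have := (h.refl j).up hV.refl hz 0 (x := -y) (y := -x) (by linarith) (by linarith) (by linarith)
    (by simpa using h0)
  simpa using this

/-- growth is at most `z` per unit length -/
theorem Ph.grow {V φ : ℝ → ℝ} {M z a b : ℝ} (hV : Bd V M) (hz : 0 < z) (h : Ph V z φ a b)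
    {x y : ℝ} (hx : a ≤ x) (hxy : x ≤ y) (hy : y ≤ b) : φ y ≤ φ x + z * (y - x) := by
  have h' := h.mono hx hy
  have := fence' (K := 0) (f := fun t => φ t - (φ x + z * (t - x)))
    (f' := fun t => z - V t / z * sin (φ t) ^ 2 - z)
    (fun t ht => (h' t ht).sub (by
      simpa using (((hasDerivAt_id t).sub_const x).const_mul z).const_add (φ x))) (by simp)
    (fun t _ _ => by
      have : 0 ≤ V t / z * sin (φ t) ^ 2 := mul_nonneg (div_nonneg (hV.2 t).1 hz.le) (sq_nonneg _)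
      linarith) y ⟨hxy, le_rfl⟩
  simpa using this

/-- growth is at least `z - N / z` where the potential is at most `N` -/
theorem Ph.grow' {V φ : ℝ → ℝ} {N z a b : ℝ} (hz : 0 < z) (hN : 0 ≤ N) (h : Ph V z φ a b)
    {x y : ℝ} (hx : a ≤ x) (hxy : x ≤ y) (hy : y ≤ b) (hV : ∀ t ∈ Icc x y, V t ≤ N) :
    φ x + (z - N / z) * (y - x) ≤ φ y := by
  have h' := h.mono hx hy
  have := fence' (K := 0) (f := fun t => (φ x + (z - N / z) * (t - x)) - φ t)
    (f' := fun t => (z - N / z) - (z - V t / z * sin (φ t) ^ 2))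
    (fun t ht => HasDerivAt.sub (by
      simpa using (((hasDerivAt_id t).sub_const x).const_mul (z - N / z)).const_add (φ x))
      (h' t ht)) (by simp)
    (fun t ht _ => by
      have h1 : V t / z ≤ N / z :=
        div_le_div_of_nonneg_right (hV t (Ico_subset_Icc_self ht)) hz.le
      have h2 : 0 ≤ N / z := div_nonneg hN hz.le
      have h3 := sin_sq_le_one (φ t)
      have h4 := sq_nonneg (sin (φ t))
      nlinarith) y ⟨hxy, le_rfl⟩
  simpa using this

theorem exists_ph {V : ℝ → ℝ} {M z L : ℝ} (hV : Bd V M) (hz : 0 < z) (hL : 0 ≤ L) :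
    ∃ φ : ℝ → ℝ, φ 0 = 0 ∧ Ph V z φ 0 L := by
  have hM : 0 ≤ M := (hV.2 0).1.trans (hV.2 0).2
  have hb : 0 ≤ z + M / z := by positivity
  have hPL : IsPicardLindelof (fun t x => z - V t / z * sin x ^ 2) (tmin := -1) (tmax := L + 1)
      ⟨0, by constructor <;> linarith⟩ (0 : ℝ) (NNReal.mk ((z + M / z) * (L + 1)) (by positivity)) 0
      (NNReal.mk (z + M / z) hb) (NNReal.mk (M / z) (by positivity)) := by
    refine ⟨fun t _ => ?_, fun x _ => ?_, fun t _ x _ => ?_, ?_⟩
    · refine LipschitzWith.lipschitzOnWith (LipschitzWith.of_dist_le_mul fun x y => ?_)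
      rw [Real.dist_eq, Real.dist_eq, abs_le]
      have h1 := hV.lip hz t x y
      have h2 := hV.lip hz t y x
      rw [abs_sub_comm] at h2
      simp only [NNReal.coe_mk]
      constructor <;> linarith
    · have := hV.1
      fun_prop
    · rw [Real.norm_eq_abs, abs_le]
      have h1 : V t / z ≤ M / z := div_le_div_of_nonneg_right (hV.2 t).2 hz.le
      have h2 : 0 ≤ V t / z := div_nonneg (hV.2 t).1 hz.le
      have h3 := sin_sq_le_one x
      have h4 := sq_nonneg (sin x)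
      simp only [NNReal.coe_mk]
      constructor <;> nlinarith
    · simp only [NNReal.coe_mk, sub_zero, NNReal.coe_zero, zero_sub, neg_neg]
      rw [max_eq_left (by linarith)]
  obtain ⟨α, h0, hα⟩ := hPL.exists_eq_forall_mem_Icc_hasDerivWithinAt₀
  refine ⟨α, h0, fun x hx => ?_⟩
  exact (hα x ⟨by linarith [hx.1], by linarith [hx.2]⟩).hasDerivAt
    (Icc_mem_nhds (by linarith [hx.1]) (by linarith [hx.2]))

/-- strict monotonicity in `z` -/
theorem ph_lt {V φ Φ : ℝ → ℝ} {M z Z L : ℝ} (hV : Bd V M) (hz : 0 < z) (hzZ : z < Z) (hL : 0 < L)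
    (h : Ph V z φ 0 L) (H : Ph V Z Φ 0 L) (h0 : φ 0 = 0) (H0 : Φ 0 = 0) : φ L < Φ L := by
  have hM : 0 ≤ M := (hV.2 0).1.trans (hV.2 0).2
  have hK : 0 ≤ M / z := by positivity
  set c := (Z - z) / (1 + M / z * L) with hc
  have hc0 : 0 < c := div_pos (sub_pos.2 hzZ) (by positivity)
  have hc1 : c * (1 + M / z * L) = Z - z := by rw [hc]; field_simp
  have := fence' (K := M / z) (f := fun t => φ t - Φ t + c * t)
    (f' := fun t => (z - V t / z * sin (φ t) ^ 2) - (Z - V t / Z * sin (Φ t) ^ 2) + c)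
    (fun t ht => ((h t ht).sub (H t ht)).add (by simpa using (hasDerivAt_id t).const_mul c))
    (by simp [h0, H0]) (fun t ht hp => by
      have h1 := hV.lip hz t (Φ t) (φ t)
      have h2 : V t / Z ≤ V t / z := div_le_div_of_nonneg_left (hV.2 t).1 hz hzZ.le
      have h3 := mul_le_mul_of_nonneg_right h2 (sq_nonneg (sin (Φ t)))
      have h4 : 0 ≤ c * t := mul_nonneg hc0.le ht.1
      have h5 : |Φ t - φ t| ≤ (φ t - Φ t + c * t) + c * t := by
        rw [abs_le]; constructor <;> linarith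
      have h6 := mul_le_mul_of_nonneg_left h5 hK
      have h7 : M / z * (c * t) ≤ M / z * (c * L) :=
        mul_le_mul_of_nonneg_left (mul_le_mul_of_nonneg_left ht.2.le hc0.le) hK
      nlinarith) L ⟨hL.le, le_rfl⟩
  have h8 : 0 < c * L := mul_pos hc0 hL
  linarith

/-- Lipschitz dependence on `z` -/
theorem ph_le_add {V φ Φ : ℝ → ℝ} {M z Z L r : ℝ} (hV : Bd V M) (hr : 0 < r) (hz : r ≤ z)
    (hzZ : z ≤ Z) (hL : 0 < L)
    (h : Ph V z φ 0 L) (H : Ph V Z Φ 0 L) (h0 : φ 0 = 0) (H0 : Φ 0 = 0) :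
    Φ L - φ L ≤ (1 + M / r ^ 2) * exp ((M / r + 1) * L) * (Z - z) := by
  have hM : 0 ≤ M := (hV.2 0).1.trans (hV.2 0).2
  have hz0 : 0 < z := hr.trans_le hz
  have hZ0 : 0 < Z := hz0.trans_le hzZ
  have hK : 0 ≤ M / r := by positivity
  set d := (1 + M / r ^ 2) * (Z - z) with hd
  have hd0 : 0 ≤ d := mul_nonneg (by positivity) (sub_nonneg.2 hzZ)
  have := fence' (K := M / r) (f := fun t => Φ t - φ t - d * exp ((M / r + 1) * t))
    (f' := fun t => (Z - V t / Z * sin (Φ t) ^ 2) - (z - V t / z * sin (φ t) ^ 2)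
      - d * (exp ((M / r + 1) * t) * (M / r + 1)))
    (fun t ht => ((H t ht).sub (h t ht)).sub (HasDerivAt.const_mul d (HasDerivAt.exp
      (by simpa using (hasDerivAt_id t).const_mul (M / r + 1)))))
    (by simp [h0, H0, hd0]) (fun t ht hp => by
      have h1 := hV.lip hz0 t (φ t) (Φ t)
      have h2 : V t / z - V t / Z ≤ M / r ^ 2 * (Z - z) := by
        have e : V t / z - V t / Z = V t / (z * Z) * (Z - z) := by field_simp
        rw [e]
        refine mul_le_mul_of_nonneg_right ?_ (sub_nonneg.2 hzZ)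
        refine div_le_div₀ hM (hV.2 t).2 (by positivity) ?_
        nlinarith
      have h2' : V t / Z ≤ V t / z := div_le_div_of_nonneg_left (hV.2 t).1 hz0 hzZ
      have h3 : (V t / z - V t / Z) * sin (Φ t) ^ 2 ≤ M / r ^ 2 * (Z - z) := by
        have := sin_sq_le_one (Φ t)
        nlinarith
      have hE : 1 ≤ exp ((M / r + 1) * t) := one_le_exp (mul_nonneg (by positivity) ht.1)
      have h4 : d ≤ d * exp ((M / r + 1) * t) := le_mul_of_one_le_right hd0 hE
      have h5 : |φ t - Φ t| = Φ t - φ t := by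
        rw [abs_sub_comm]; exact abs_of_nonneg (by linarith)
      have h6 : M / z ≤ M / r := div_le_div_of_nonneg_left hM hr hz
      rw [h5] at h1
      have h7 : M / z * (Φ t - φ t) ≤ M / r * (Φ t - φ t) :=
        mul_le_mul_of_nonneg_right h6 (by linarith)
      nlinarith) L ⟨hL.le, le_rfl⟩
  rw [hd] at this
  linarith

end Pool.Agent.Lib.MP_6547d0_mp
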