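import Pool.Agent.Lib.MP_6547d0_mp.Trig

/-! Comparison of two phases over a potential with finitely many wells. -/

set_option autoImplicit false

namespace Pool.Agent.Lib.MP_6547d0_mp

open Set Filter Topology Real

theorem sin_le_mul {τ y s : ℝ} (hτ : 1 ≤ τ) (hy : 0 ≤ y) (hy2 : y ≤ π / 2) (hs : 0 ≤ s)
    (hs2 : s ≤ τ * y) : sin s ^ 2 ≤ (τ * sin y) ^ 2 := by
  have hτ0 : 0 < τ := by linarith
  rcases le_total (π / 2) (τ * y) with h | h
  · have h1 := mul_le_mul_of_nonneg_left (mul_le_sin hy hy2) hτ0.le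
    have h2 : 1 ≤ τ * (2 / π * y) := by
      have e : τ * (2 / π * y) = (τ * y) / (π / 2) := by field_simp
      rw [e]
      exact (one_le_div (by positivity)).2 h
    nlinarith [sin_sq_le_one s]
  · have h1 : sin s ≤ sin (τ * y) :=
      sin_le_sin_of_le_of_le_pi_div_two (by linarith [pi_pos]) h hs2
    have h2 := strictConcaveOn_sin_Icc.concaveOn.2
      (show τ * y ∈ Icc 0 π from ⟨by positivity, by linarith [pi_pos]⟩)
      (show (0 : ℝ) ∈ Icc 0 π from ⟨le_rfl, pi_pos.le⟩)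
      (show 0 ≤ 1 / τ by positivity)
      (show 0 ≤ 1 - 1 / τ by rw [sub_nonneg]; exact (div_le_one hτ0).2 hτ) (by ring)
    have e : 1 / τ * (τ * y) = y := by field_simp
    simp only [smul_eq_mul, sin_zero, mul_zero, add_zero, e] at h2
    have h3 : sin (τ * y) ≤ τ * sin y := by
      have := mul_le_mul_of_nonneg_left h2 hτ0.le
      have e2 : τ * (1 / τ * sin (τ * y)) = sin (τ * y) := by field_simp
      linarith
    have h4 : 0 ≤ sin s := sin_nonneg_of_nonneg_of_le_pi hs (by linarith [pi_pos])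
    exact pow_le_pow_left₀ h4 (h1.trans h3) 2

theorem sin_mul_le {τ x : ℝ} (hτ : 1 ≤ τ) (hx : 0 ≤ x) (h : τ * x ≤ ⌊τ⌋₊ * π) :
    sin (τ * x) ^ 2 ≤ (τ * sin x) ^ 2 := by
  rcases le_total x (π / 2) with h1 | h1
  · exact sin_le_mul hτ hx h1 (by positivity) le_rfl
  · have hN : (⌊τ⌋₊ : ℝ) ≤ τ := Nat.floor_le (by linarith)
    have hN' := mul_le_mul_of_nonneg_right hN pi_pos.le
    have h2 : x ≤ π := by
      by_contra h3
      push Not at h3
      nlinarith
    have := sin_le_mul (y := π - x) (s := ⌊τ⌋₊ * π - τ * x) hτ (by linarith) (by linarith)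
      (by linarith) (by nlinarith)
    rw [sin_pi_sub, ← neg_sub, sin_neg, neg_sq, sin_sq_sub_nat] at this
    exact this

theorem sub_le {V : ℝ → ℝ} {M z0 z : ℝ} (hV : Bd V M) (hz0 : 0 < z0) (hz : z0 ≤ z) (x s : ℝ) :
    z0 - V x / z0 * sin s ^ 2 ≤ z - V x / z * sin s ^ 2 := by
  have h2 : V x / z ≤ V x / z0 := div_le_div_of_nonneg_left (hV.2 x).1 hz0 hz
  have h3 := mul_le_mul_of_nonneg_right h2 (sq_nonneg (sin s))
  linarith

theorem stage1 {V φ Φ : ℝ → ℝ} {M z0 z Z a b : ℝ} (hV : Bd V M) (hz0 : 0 < z0) (hz : z0 ≤ z)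
    (hZ : z ≤ Z) (h : Ph V z0 φ a b) (H : Ph V Z Φ a b) (h0 : φ a = 0) (H0 : 0 ≤ Φ a)
    {x : ℝ} (hx : x ∈ Icc a b) (hx2 : φ x ≤ π / 2) : Z / z * φ x ≤ Φ x := by
  have hz1 : 0 < z := hz0.trans_le hz
  have hZ0 : 0 < Z := hz1.trans_le hZ
  have hτ : 1 ≤ Z / z := (one_le_div hz1).2 hZ
  set τ := Z / z with hτd
  have hZe : Z = τ * z := by rw [hτd]; field_simp
  have key := fence (K := M / Z) (f := fun x => min (τ * φ x) (⌊τ⌋₊ * π) - Φ x) (a := a) (b := b)
    (((continuousOn_const.mul h.cont).inf continuousOn_const).sub H.cont)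
    (by
      have := min_le_left (τ * φ a) (⌊τ⌋₊ * π)
      rw [h0] at this ⊢
      linarith)
    (fun y hy hp => by
      have hy' := Ico_subset_Icc_self hy
      have hφ : 0 ≤ φ y := by
        simpa using h.up hV hz0 0 le_rfl hy.1 hy.2.le (by simp [h0])
      rcases le_total (τ * φ y) (⌊τ⌋₊ * π) with h1 | h1
      · refine ⟨fun x => τ * φ x - Φ x, _, ((h y hy').const_mul τ).sub (H y hy'), ?_,
          by simp only [min_eq_left h1], Eventually.of_forall fun t => ?_⟩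
        · simp only [min_eq_left h1] at hp ⊢
          have h2 := hV.lip hZ0 y (Φ y) (τ * φ y)
          rw [abs_sub_comm, abs_of_pos hp] at h2
          have h3 := mul_le_mul_of_nonneg_left (sub_le hV hz0 hz y (φ y)) (show 0 ≤ τ by linarith)
          have h4 := mul_le_mul_of_nonneg_left (sin_mul_le hτ hφ h1)
            (div_nonneg (hV.2 y).1 hZ0.le)
          have e : τ * (V y / z * sin (φ y) ^ 2) = V y / Z * (τ * sin (φ y)) ^ 2 := by
            rw [hZe]; field_simp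
          nlinarith
        · exact sub_le_sub_right (min_le_left _ _) _
      · refine ⟨fun x => ⌊τ⌋₊ * π - Φ x, _, (H y hy').const_sub _, ?_,
          by simp only [min_eq_right h1], Eventually.of_forall fun t => ?_⟩
        · simp only [min_eq_right h1] at hp ⊢
          have h2 := hV.lip hZ0 y (Φ y) (⌊τ⌋₊ * π)
          rw [sin_nat_mul_pi, abs_sub_comm, abs_of_pos hp] at h2
          nlinarith
        · exact sub_le_sub_right (min_le_right _ _) _) x hx
  have h1 : (1 : ℝ) ≤ ⌊τ⌋₊ := by exact_mod_cast (Nat.one_le_floor_iff τ).2 hτ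
  have h2 := Nat.lt_floor_add_one τ
  have h3 : τ * φ x ≤ ⌊τ⌋₊ * π := by nlinarith [pi_pos]
  simp only [min_eq_left h3] at key
  linarith

theorem stage2 {V φ Φ : ℝ → ℝ} {M z0 z Z p c : ℝ} (hV : Bd V M) (hz0 : 0 < z0) (hz : z0 ≤ z)
    (hZ : z ≤ Z) (h : Ph V z0 φ p c) (H : Ph V Z Φ p c) (hpc : p ≤ c)
    (hA : AntitoneOn V (Icc p c)) (hp : φ p = π / 2) (hge : ∀ x ∈ Icc p c, π / 2 ≤ φ x)
    (hv : V p < z ^ 2) (H0 : Z / z * φ p ≤ Φ p) : Z / z * φ c ≤ Φ c := by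
  have hz1 : 0 < z := hz0.trans_le hz
  have hZ0 : 0 < Z := hz1.trans_le hZ
  have hv1 : ∀ x ∈ Icc p c, V x < z ^ 2 := fun x hx => (hA ⟨le_rfl, hpc⟩ hx hx.1).trans_lt hv
  have hv2 : ∀ x ∈ Icc p c, V x < Z ^ 2 := fun x hx => (hv1 x hx).trans_le (by nlinarith)
  have key := fence (K := 0) (f := fun x => GG z Z (V x) (φ x - π / 2) (Φ x - π / 2))
    (a := p) (b := c)
    (((AA_cont hz1 hV.1.continuousOn (h.cont.sub continuousOn_const) hv1).sub
      (AA_cont hZ0 hV.1.continuousOn (H.cont.sub continuousOn_const) hv2)).add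
      (AA_cont hZ0 hV.1.continuousOn continuousOn_const hv2))
    (by
      have := AA_mono hZ0 (hv2 p ⟨le_rfl, hpc⟩)
        (show (Z / z - 1) * π / 2 ≤ Φ p - π / 2 by rw [hp] at H0; linarith)
      simp only [GG, hp, sub_self, AA_zero]
      linarith)
    (fun y hy hpos => by
      have hy' := Ico_subset_Icc_self hy
      obtain ⟨d, hd0, hd1, hd⟩ := AA_deriv hz1 (hv1 y hy') (φ y - π / 2)
      obtain ⟨D, -, hD1, hD⟩ := AA_deriv hZ0 (hv2 y hy') (Φ y - π / 2)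
      have g1 : HasDerivAt (fun t => GG z Z (V y) (φ t - π / 2) (Φ t - π / 2)) _ y :=
        ((hd.comp y ((h y hy').sub_const (π / 2))).sub
          (hD.comp y ((H y hy').sub_const (π / 2)))).add_const _
      refine ⟨_, _, g1, ?_, rfl, ?_⟩
      · rw [cos_sub_pi_div_two] at hd1 hD1
        have := mul_le_mul_of_nonneg_left (sub_le hV hz0 hz y (φ y)) hd0.le
        linarith
      · have e1 := (g1.continuousAt.eventually (lt_mem_nhds hpos)).filter_mono
          (nhdsWithin_le_nhds (s := Ioi y))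
        filter_upwards [e1, Icc_mem_nhdsGT_of_mem hy, self_mem_nhdsWithin] with t ht ht2 ht3
        have := GG_le hz1 hZ (hV.2 t).1 (hA hy' ht2 (le_of_lt ht3)) (hv1 y hy')
          (sub_nonneg.2 (hge t ht2)) (Φ t - π / 2)
        rwa [max_eq_left ht.le] at this) c ⟨hpc, le_rfl⟩
  have h1 := GG_le hz1 hZ le_rfl (hV.2 c).1 (hv1 c ⟨hpc, le_rfl⟩)
    (sub_nonneg.2 (hge c ⟨hpc, le_rfl⟩)) (Φ c - π / 2)
  rw [max_eq_right key] at h1
  simp only [GG, AA_free hz1, AA_free hZ0] at h1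
  have e : Z / z * φ c - Φ c
      = Z * ((φ c - π / 2) / z - (Φ c - π / 2) / Z + (Z / z - 1) * π / 2 / Z) := by
    field_simp; ring
  have := mul_nonpos_of_nonneg_of_nonpos hZ0.le h1
  linarith

theorem half {V φ Φ : ℝ → ℝ} {M z0 z Z p b c : ℝ} (hV : Bd V M) (hz0 : 0 < z0) (hz : z0 < z)
    (hZ : z ≤ Z) (h : Ph V z0 φ p c) (H : Ph V Z Φ p c) (hb : p ≤ b) (hc : b ≤ c)
    (hA : AntitoneOn V (Icc b c)) (h0 : φ p = 0) (hb2 : φ b ≤ π / 2) (H0 : 0 ≤ Φ p) :
    Z / z * φ c ≤ Φ c := by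
  rcases le_or_gt (φ c) (π / 2) with h1 | h1
  · exact stage1 hV hz0 hz.le hZ h H h0 H0 ⟨hb.trans hc, le_rfl⟩ h1
  have hcl : IsClosed (Icc b c ∩ φ ⁻¹' Iic (π / 2)) :=
    (h.mono hb le_rfl).cont.preimage_isClosed_of_isClosed isClosed_Icc isClosed_Iic
  obtain ⟨q, ⟨hq1, hq2⟩, hq3⟩ := (isCompact_Icc.of_isClosed_subset hcl
    inter_subset_left).exists_isGreatest ⟨b, ⟨le_rfl, hc⟩, hb2⟩
  have hq2' : φ q ≤ π / 2 := hq2
  have hgt : ∀ y, q < y → y ≤ c → π / 2 < φ y := fun y hy hy2 => by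
    by_contra h2
    exact absurd (hq3 ⟨⟨hq1.1.trans hy.le, hy2⟩, not_lt.1 h2⟩) (not_le.2 hy)
  have hq4 : φ q = π / 2 := by
    obtain ⟨y, hy, hy2⟩ := intermediate_value_Icc hq1.2 (h.mono (hb.trans hq1.1) le_rfl).cont
      ⟨hq2', h1.le⟩
    rcases hy.1.eq_or_lt with e | e
    · rw [e, hy2]
    · exact absurd (hgt y e hy.2) (by rw [hy2]; exact lt_irrefl _)
  have hqc : q < c := hq1.2.lt_of_ne fun e => by rw [e] at hq4; linarith
  have hq5 : q ∈ Icc p c := ⟨hb.trans hq1.1, hq1.2⟩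
  have hv : V q ≤ z0 ^ 2 := by
    by_contra h2
    push Not at h2
    have hd := h q hq5
    rw [hq4, sin_pi_div_two] at hd
    have hneg : z0 - V q / z0 * 1 ^ 2 < 0 := by
      have : z0 < V q / z0 := by rw [lt_div_iff₀ hz0]; nlinarith
      linarith
    have hs := ((hasDerivAt_iff_tendsto_slope.1 hd).eventually (gt_mem_nhds hneg)).filter_mono
      (nhdsWithin_mono q (show Ioi q ⊆ {q}ᶜ from fun y hy => ne_of_gt hy))
    obtain ⟨y, hy1, hy2⟩ := (hs.and (Ioc_mem_nhdsGT hqc)).exists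
    rw [slope_def_field] at hy1
    have := div_pos (show 0 < φ y - φ q by linarith [hgt y hy2.1 hy2.2]) (sub_pos.2 hy2.1)
    linarith
  refine stage2 hV hz0 hz.le hZ (h.mono hq5.1 le_rfl) (H.mono hq5.1 le_rfl) hq1.2
    (hA.mono (Icc_subset_Icc hq1.1 le_rfl)) hq4 (fun y hy => ?_) (by nlinarith)
    (stage1 hV hz0 hz.le hZ h H h0 H0 hq5 hq2')
  rcases hy.1.eq_or_lt with e | e
  · rw [← e, hq4]
  · exact (hgt y e hy.2).le

theorem block {V φ Φ : ℝ → ℝ} {M z0 z Z p q b c b' : ℝ} (hV : Bd V M) (hz0 : 0 < z0)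
    (hz : z0 < z) (hZ : z ≤ Z) (h : Ph V z0 φ p q) (H : Ph V Z Φ p q) (hb : p ≤ b) (hbb : b ≤ b')
    (hq : b' ≤ q) (hA : AntitoneOn V (Icc b c)) (hM : MonotoneOn V (Icc c b')) (i k P Q : ℕ)
    (h0 : φ p = i * π) (h1 : φ q = (i + k : ℕ) * π) (h2 : φ b ≤ i * π + π / 2)
    (h3 : (i + k : ℕ) * π - π / 2 ≤ φ b') (H0 : P * π ≤ Φ p) (H1 : Φ q ≤ (P + Q : ℕ) * π) :
    Z / z * k ≤ Q := by
  obtain ⟨d, hd1, hd2, hA', hM'⟩ : ∃ d, b ≤ d ∧ d ≤ b' ∧ AntitoneOn V (Icc b d) ∧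
      MonotoneOn V (Icc d b') := by
    rcases le_total c b with h4 | h4
    · exact ⟨b, le_rfl, hbb, by simp, hM.mono (Icc_subset_Icc h4 le_rfl)⟩
    rcases le_total c b' with h5 | h5
    · exact ⟨c, h4, h5, hA, hM⟩
    · exact ⟨b', hbb, le_rfl, hA.mono (Icc_subset_Icc le_rfl h5), by simp⟩
  have f1 := half hV hz0 hz hZ ((h.mono le_rfl (hd2.trans hq)).shift i)
    ((H.mono le_rfl (hd2.trans hq)).shift P) hb hd1 hA' (by simp [h0]) (by linarith) (by linarith)
  have f2 := half (b := -b') hV.refl hz0 hz hZ ((h.mono (hb.trans hd1) le_rfl).refl (i + k))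
    ((H.mono (hb.trans hd1) le_rfl).refl (P + Q)) (by linarith) (by linarith)
    (fun x hx y hy hxy => hM' ⟨by linarith [hy.2], by linarith [hy.1]⟩
      ⟨by linarith [hx.2], by linarith [hx.1]⟩ (by linarith))
    (by simp [h1]) (by simp only [neg_neg]; linarith) (by simp only [neg_neg]; linarith)
  simp only [neg_neg] at f2
  push_cast at f2
  have : (Z / z * k) * π ≤ Q * π := by nlinarith
  exact le_of_mul_le_mul_right this pi_pos

theorem b_mono {b : ℕ → ℝ} {w : ℕ} (hb : ∀ j < w, b j ≤ b (j + 1)) {i j : ℕ} (hij : i ≤ j)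
    (hj : j ≤ w) : b i ≤ b j := by
  induction j, hij using Nat.le_induction with
  | base => exact le_rfl
  | succ j _ ih => exact (ih (by omega)).trans (hb j (by omega))

theorem comp_step {τ : ℝ} {j A P : ℕ}
    (h : ∃ k : ℕ → ℕ, ∑ i ∈ Finset.range j, k i = A ∧ ∑ i ∈ Finset.range j, ⌊τ * k i⌋₊ = P)
    (a : ℕ) : ∃ k : ℕ → ℕ, ∑ i ∈ Finset.range (j + 1), k i = A + a ∧
      ∑ i ∈ Finset.range (j + 1), ⌊τ * k i⌋₊ = P + ⌊τ * a⌋₊ := by
  obtain ⟨k, h1, h2⟩ := h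
  refine ⟨fun i => if i < j then k i else a, ?_, ?_⟩
  · rw [Finset.sum_range_succ, if_neg (lt_irrefl j), ← h1]
    exact congrArg (· + a) (Finset.sum_congr rfl fun i hi => if_pos (Finset.mem_range.1 hi))
  · rw [Finset.sum_range_succ, ← h2]
    simp only [if_neg (lt_irrefl j)]
    exact congrArg (· + ⌊τ * a⌋₊)
      (Finset.sum_congr rfl fun i hi => by rw [if_pos (Finset.mem_range.1 hi)])

theorem assembly {V φ Φ : ℝ → ℝ} {M z0 Z τ L : ℝ} (hV : Bd V M) (hz0 : 0 < z0) (hτ : 1 ≤ τ)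
    (hZ : τ * z0 < Z) (h : Ph V z0 φ 0 L) (H : Ph V Z Φ 0 L) (h0 : φ 0 = 0) (H0 : Φ 0 = 0)
    {n w : ℕ} (hn : φ L = n * π) {b c : ℕ → ℝ} (hb0 : b 0 = 0) (hbw : b w = L)
    (hw : ∀ j < w, b j ≤ c j ∧ c j ≤ b (j + 1) ∧ AntitoneOn V (Icc (b j) (c j)) ∧
      MonotoneOn V (Icc (c j) (b (j + 1)))) :
    ∃ k : ℕ → ℕ, ∑ i ∈ Finset.range w, k i = n ∧
      (∑ i ∈ Finset.range w, ⌊τ * k i⌋₊ : ℕ) * π ≤ Φ L := by
  have hτ0 : 0 < τ := by linarith
  have hZ0 : 0 < Z := lt_trans (by positivity) hZ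
  have hz1 : z0 < Z / τ := by rw [lt_div_iff₀ hτ0]; linarith
  set z := (z0 + Z / τ) / 2 with hzd
  have hz : z0 < z := by linarith
  have hz2 : z < Z / τ := by linarith
  have hz3 : τ < Z / z := by
    rw [lt_div_iff₀ (by linarith)]
    rw [lt_div_iff₀ hτ0] at hz2
    linarith
  have hz4 : z ≤ Z := by
    have := (one_le_div (show 0 < z by linarith)).1 (hτ.trans hz3.le)
    exact this
  have hb : ∀ j < w, b j ≤ b (j + 1) := fun j hj => (hw j hj).1.trans (hw j hj).2.1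
  have hbI : ∀ j ≤ w, 0 ≤ b j ∧ b j ≤ L := fun j hj =>
    ⟨hb0 ▸ b_mono hb (Nat.zero_le j) hj, hbw ▸ b_mono hb hj le_rfl⟩
  have hL : 0 ≤ L := (hbI 0 (Nat.zero_le w)).1.trans (hbI 0 (Nat.zero_le w)).2
  have hpi := pi_pos
  have key : ∀ j ≤ w, ∃ (A P : ℕ) (x : ℝ), (∃ k : ℕ → ℕ, ∑ i ∈ Finset.range j, k i = A ∧
      ∑ i ∈ Finset.range j, ⌊τ * k i⌋₊ = P) ∧ 0 ≤ x ∧ x ≤ L ∧ φ x = A * π ∧ P * π ≤ Φ x ∧
      φ (b j) ≤ A * π + π / 2 := by
    intro j
    induction j with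
    | zero =>
      intro _
      refine ⟨0, 0, 0, ⟨fun _ => 0, by simp, by simp⟩, le_rfl, hL, by simp [h0], by simp [H0], ?_⟩
      rw [hb0, h0]
      simp only [Nat.cast_zero, zero_mul, zero_add]
      positivity
    | succ j ih =>
      intro hj
      obtain ⟨A, P, x, hk, hx0, hxL, hx, hP, hbj⟩ := ih (by omega)
      rcases le_or_gt (φ (b (j + 1))) (A * π + π / 2) with h1 | h1
      · refine ⟨A + 0, _, x, comp_step hk 0, hx0, hxL, by simpa using hx, by simpa using hP,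
          by simpa using h1⟩
      obtain ⟨hj0, hjL⟩ := hbI j (by omega)
      obtain ⟨hj0', hjL'⟩ := hbI (j + 1) hj
      have h2 : (A : ℝ) < φ (b (j + 1)) / π - 1 / 2 := by
        rw [lt_sub_iff_add_lt, lt_div_iff₀ hpi]; linarith
      have h3 : A < ⌈φ (b (j + 1)) / π - 1 / 2⌉₊ := Nat.lt_ceil.2 h2
      obtain ⟨a, ha⟩ := Nat.exists_eq_add_of_le h3.le
      have ha1 : (1 : ℝ) ≤ a := by exact_mod_cast (show 1 ≤ a by omega)
      have h4 := Nat.le_ceil (φ (b (j + 1)) / π - 1 / 2)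
      have h5 := Nat.ceil_lt_add_one (show 0 ≤ φ (b (j + 1)) / π - 1 / 2 from
        (Nat.cast_nonneg A).trans h2.le)
      rw [ha] at h4 h5
      have h4' : φ (b (j + 1)) ≤ (A + a : ℕ) * π + π / 2 := by
        rw [sub_le_iff_le_add, div_le_iff₀ hpi] at h4; linarith
      have h5' : (A + a : ℕ) * π - π / 2 < φ (b (j + 1)) := by
        have : ((A + a : ℕ) : ℝ) - 1 / 2 < φ (b (j + 1)) / π := by linarith
        rw [lt_div_iff₀ hpi] at this; linarith
      have h6 : φ (b (j + 1)) ≤ n * π := h.down hV hz0 n hj0' hjL' le_rfl hn.le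
      have h7 : A + a ≤ n := by
        have : ((A + a : ℕ) : ℝ) < n + 1 := by
          by_contra h8
          push Not at h8
          nlinarith
        exact Nat.lt_succ_iff.1 (by exact_mod_cast this)
      have h7' : ((A + a : ℕ) : ℝ) ≤ n := by exact_mod_cast h7
      have hAa : ((A + a : ℕ) : ℝ) = A + a := by push_cast; ring
      obtain ⟨y, hy, hy2⟩ := intermediate_value_Icc hxL (h.mono hx0 le_rfl).cont
        (show (A + a : ℕ) * π ∈ Icc (φ x) (φ L) from ⟨by rw [hx, hAa]; nlinarith, by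
          rw [hn]; nlinarith⟩)
      refine ⟨A + a, _, y, comp_step hk a, hx0.trans hy.1, hy.2, hy2, ?_, h4'⟩
      by_contra h8
      push Not at h8
      have h9 : x ≤ b (j + 1) := by
        by_contra h9
        push Not at h9
        linarith [h.down hV hz0 A hj0' h9.le hxL hx.le]
      have h10 : b j ≤ y := by
        by_contra h10
        push Not at h10
        have := h.up hV hz0 (A + a) (hx0.trans hy.1) h10.le hjL hy2.ge
        rw [hAa] at this
        nlinarith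
      obtain ⟨hw1, hw2, hw3, hw4⟩ := hw j (by omega)
      have := block (b := max x (b j)) (b' := min y (b (j + 1))) (c := c j) hV hz0 hz hz4
        (h.mono hx0 hy.2) (H.mono hx0 hy.2) (le_max_left _ _)
        (max_le (le_min hy.1 h9) (le_min h10 (hw1.trans hw2))) (min_le_left _ _)
        (hw3.mono (Icc_subset_Icc (le_max_right _ _) le_rfl))
        (hw4.mono (Icc_subset_Icc le_rfl (min_le_right _ _))) A a P ⌊τ * a⌋₊ hx hy2
        (by rcases max_choice x (b j) with e | e <;> rw [e] <;> linarith)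
        (by rcases min_choice y (b (j + 1)) with e | e <;> rw [e] <;> linarith) hP h8.le
      have h11 : (⌊τ * a⌋₊ : ℝ) ≤ τ * a := Nat.floor_le (by positivity)
      nlinarith
  obtain ⟨A, P, x, ⟨k, hk1, hk2⟩, hx0, hxL, hx, hP, hbj⟩ := key w le_rfl
  refine ⟨k, ?_, ?_⟩
  · rw [hk1]
    have h1 := h.up hV hz0 A hx0 hxL le_rfl hx.ge
    rw [hbw, hn] at hbj
    rw [hn] at h1
    have h2 : (A : ℝ) ≤ n := le_of_mul_le_mul_right h1 hpi
    have h3 : (n : ℝ) < A + 1 := by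
      by_contra h8
      push Not at h8
      nlinarith
    have h2' : A ≤ n := by exact_mod_cast h2
    have h3' : n < A + 1 := by exact_mod_cast h3
    omega
  · rw [hk2]
    exact H.up hV hZ0 P hx0 hxL le_rfl hP

end Pool.Agent.Lib.MP_6547d0_mp
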