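import Pool.Agent.Lib.MP_6547d0_mp.Half
import Pool.Agent.Lib.MP_6547d0_mp.Defs

/-! Flat wells separated by high thin barriers. -/

set_option autoImplicit false

namespace Pool.Agent.Lib.MP_6547d0_mp

open Set Filter Topology Real

theorem sin_sq_ge {ε B : ℝ} (h0 : 0 ≤ ε) (h1 : ε ≤ B) (h2 : B ≤ π - ε) :
    sin ε ^ 2 ≤ sin B ^ 2 := by
  have hs : 0 ≤ sin ε := sin_nonneg_of_nonneg_of_le_pi h0 (by linarith)
  refine pow_le_pow_left₀ hs ?_ 2
  rcases le_total B (π / 2) with h | h
  · exact sin_le_sin_of_le_of_le_pi_div_two (by linarith [pi_pos]) h h1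
  · rw [← sin_pi_sub B]
    exact sin_le_sin_of_le_of_le_pi_div_two (by linarith [pi_pos]) (by linarith) (by linarith)

theorem plateau {V Φ : ℝ → ℝ} {M Z x y ε s : ℝ} (hV : Bd V M) (hZ : 0 < Z) (H : Ph V Z Φ x y)
    (hxy : x ≤ y) (hε : 0 ≤ ε) (hε2 : ε ≤ π / 2) (hs0 : 0 ≤ s) (hs : π ≤ s * (y - x))
    (hV' : ∀ t ∈ Icc x y, Z - V t / Z * sin ε ^ 2 ≤ -s) (h0 : Φ x ≤ π - ε) : Φ y ≤ ε := by
  have key := fence (K := M / Z) (f := fun t => Φ t - max ε (π - ε - s * (t - x)))
    (a := x) (b := y) (H.cont.sub (by fun_prop))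
    (by
      have := le_max_right ε (π - ε - s * (x - x))
      rw [sub_self] at this ⊢
      linarith)
    (fun t ht hp => by
      have ht' := Ico_subset_Icc_self ht
      set B := max ε (π - ε - s * (t - x)) with hB
      refine ⟨fun u => Φ u - (B - s * (u - t)), Z - V t / Z * sin (Φ t) ^ 2 - -s,
        (H t ht').sub (by simpa using (((hasDerivAt_id t).sub_const t).const_mul s).const_sub B),
        ?_, by simp [hB], ?_⟩
      · have h1 := hV.lip hZ t B (Φ t)
        rw [abs_sub_comm, abs_of_pos hp] at h1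
        have h2 : sin ε ^ 2 ≤ sin B ^ 2 := sin_sq_ge hε (le_max_left _ _)
          (max_le (by linarith) (by linarith [mul_nonneg hs0 (sub_nonneg.2 ht.1)]))
        have h3 := mul_le_mul_of_nonneg_left h2 (div_nonneg (hV.2 t).1 hZ.le)
        have h4 := hV' t ht'
        linarith
      · filter_upwards [self_mem_nhdsWithin] with u hu
        have h1 : 0 ≤ s * (u - t) := mul_nonneg hs0 (sub_nonneg.2 (le_of_lt hu))
        have h2 : B ≤ max ε (π - ε - s * (u - x)) + s * (u - t) :=
          max_le (by linarith [le_max_left ε (π - ε - s * (u - x))])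
            (by linarith [le_max_right ε (π - ε - s * (u - x))])
        linarith) y ⟨hxy, le_rfl⟩
  simp only [max_eq_left (show π - ε - s * (y - x) ≤ ε by linarith)] at key
  linarith

/-- a trapezoid profile -/
noncomputable def bump (η d : ℝ) : ℝ := max 0 (min 1 (2 - d / η))

theorem bump_anti {η : ℝ} (hη : 0 < η) : Antitone (bump η) := fun _ _ h =>
  max_le_max le_rfl (min_le_min le_rfl (sub_le_sub_left (div_le_div_of_nonneg_right h hη.le) _))

theorem bump_zero {η d : ℝ} (hη : 0 < η) (h : 2 * η ≤ d) : bump η d = 0 :=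
  max_eq_left ((min_le_right _ _).trans (sub_nonpos.2 ((le_div_iff₀ hη).2 h)))

theorem bump_one {η d : ℝ} (hη : 0 < η) (h : d ≤ η) : bump η d = 1 := by
  have : d / η ≤ 1 := (div_le_one hη).2 h
  unfold bump
  rw [min_eq_left (by linarith), max_eq_right zero_le_one]

theorem bump_nonneg (η d : ℝ) : 0 ≤ bump η d := le_max_left _ _

theorem exists_profile {η N : ℝ} (hη : 0 < η) (hN : 0 ≤ N) {b : ℕ → ℝ}
    (hb : ∀ i, b i + 4 * η ≤ b (i + 1)) (w : ℕ) : ∃ V M, Bd V M ∧ ∀ j < w,
      ∀ x ∈ Icc (b j) (b (j + 1)), V x = N * (bump η (x - b j) + bump η (b (j + 1) - x)) := by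
  have hm : Monotone b := monotone_nat_of_le_succ fun i => by linarith [hb i]
  refine ⟨fun x => N * ∑ i ∈ Finset.range (w + 1), bump η |x - b i|, N * (w + 1 : ℕ),
    ⟨?_, fun x => ⟨?_, ?_⟩⟩, fun j hj x hx => ?_⟩
  · unfold bump
    fun_prop
  · exact mul_nonneg hN (Finset.sum_nonneg fun i _ => bump_nonneg _ _)
  · refine mul_le_mul_of_nonneg_left ?_ hN
    have := Finset.sum_le_card_nsmul (Finset.range (w + 1)) (fun i => bump η |x - b i|) 1
      fun i _ => max_le zero_le_one (min_le_left _ _)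
    simpa using this
  · simp only
    rw [Finset.sum_eq_add_of_mem j (j + 1) (Finset.mem_range.2 (by omega))
      (Finset.mem_range.2 (by omega)) (by omega), abs_of_nonneg (sub_nonneg.2 hx.1),
      abs_sub_comm, abs_of_nonneg (sub_nonneg.2 hx.2)]
    intro i _ hi
    refine bump_zero hη ?_
    rcases Nat.lt_or_ge i j with h | h
    · have := hm (show i + 1 ≤ j from h)
      exact le_abs.2 (Or.inl (by linarith [hb i, hx.1]))
    · have := hm (show j + 1 + 1 ≤ i by omega)
      exact le_abs.2 (Or.inr (by linarith [hb (j + 1), hx.2]))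

theorem exists_gap (τ : ℝ) (k : ℕ → ℕ) (w : ℕ) :
    ∃ γ : ℝ, 0 < γ ∧ γ ≤ 1 ∧ ∀ j < w, τ * k j + γ ≤ ⌊τ * k j⌋₊ + 1 := by
  induction w with
  | zero => exact ⟨1, one_pos, le_rfl, fun j hj => absurd hj (Nat.not_lt_zero j)⟩
  | succ w ih =>
    obtain ⟨γ, h0, h1, h2⟩ := ih
    refine ⟨min γ (⌊τ * k w⌋₊ + 1 - τ * k w), lt_min h0 (sub_pos.2 (Nat.lt_floor_add_one _)),
      (min_le_left _ _).trans h1, fun j hj => ?_⟩
    rcases Nat.lt_succ_iff_lt_or_eq.1 hj with h | rfl
    · linarith [h2 j h, min_le_left γ (⌊τ * k w⌋₊ + 1 - τ * k w)]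
    · linarith [min_le_right γ (⌊τ * k j⌋₊ + 1 - τ * k j)]

theorem sharp {τ : ℝ} (hτ : 1 ≤ τ) {w : ℕ} (hw : 1 ≤ w) (k : ℕ → ℕ) :
    ∃ (L M : ℝ) (V : ℝ → ℝ), 0 < L ∧ Bd V M ∧ Wells w L V ∧
      (∀ φ, φ 0 = 0 → Ph V 1 φ 0 L → (∑ i ∈ Finset.range w, k i : ℕ) * π ≤ φ L) ∧
      ∀ Φ, Φ 0 = 0 → Ph V τ Φ 0 L → Φ L < (∑ i ∈ Finset.range w, ⌊τ * k i⌋₊ + 1 : ℕ) * π := by
  obtain ⟨γ, hγ, hγ1, hγ2⟩ := exists_gap τ k w
  have hpi := pi_pos
  have hτ0 : 0 < τ := by linarith
  set ε := γ * π / 4 with hεd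
  set η := γ * π / (6 * τ) with hηd
  have hε : 0 < ε := by positivity
  have hε2 : ε ≤ π / 4 := by rw [hεd]; nlinarith
  have hη : 0 < η := by positivity
  have hεη : 2 * ε + 3 * (τ * η) = γ * π := by rw [hεd, hηd]; field_simp; ring
  have hsin : 0 < sin ε := sin_pos_of_pos_of_lt_pi hε (by linarith)
  set N := τ * (τ + π / η) / sin ε ^ 2 with hNd
  have hN : 0 ≤ N := by positivity
  have hN2 : τ - N / τ * sin ε ^ 2 = -(π / η) := by rw [hNd]; field_simp; ring
  set b : ℕ → ℝ := fun j => ∑ i ∈ Finset.range j, (k i * π + 4 * η) with hbd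
  have hb0 : b 0 = 0 := by simp [hbd]
  have hbs : ∀ j, b (j + 1) = b j + (k j * π + 4 * η) := fun j => Finset.sum_range_succ _ _
  have hk : ∀ j, 0 ≤ (k j : ℝ) * π := fun j => by positivity
  have hb : ∀ i, b i + 4 * η ≤ b (i + 1) := fun i => by linarith [hbs i, hk i]
  have hm : Monotone b := monotone_nat_of_le_succ fun i => by linarith [hb i]
  have hbn : ∀ j, 0 ≤ b j := fun j => hb0 ▸ hm (Nat.zero_le j)
  obtain ⟨V, M, hV, hVe⟩ := exists_profile hη hN hb w
  refine ⟨b w, M, V, by linarith [hm hw, hb 0], hV,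
    ⟨b, fun j => b j + 2 * η, hb0, rfl, fun j hj => ⟨by linarith, by linarith [hb j], ?_, ?_⟩⟩,
    fun φ h0 h => ?_, fun Φ H0 H => ?_⟩
  · intro x hx y hy hxy
    rw [hVe j hj x ⟨hx.1, by linarith [hx.2, hb j]⟩, hVe j hj y ⟨hy.1, by linarith [hy.2, hb j]⟩,
      bump_zero hη (show 2 * η ≤ b (j + 1) - x by linarith [hx.2, hb j]),
      bump_zero hη (show 2 * η ≤ b (j + 1) - y by linarith [hy.2, hb j])]
    exact mul_le_mul_of_nonneg_left (by linarith [bump_anti hη (sub_le_sub_right hxy (b j))]) hN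
  · intro x hx y hy hxy
    rw [hVe j hj x ⟨by linarith [hx.1], hx.2⟩, hVe j hj y ⟨by linarith [hy.1], hy.2⟩,
      bump_zero hη (show 2 * η ≤ x - b j by linarith [hx.1]),
      bump_zero hη (show 2 * η ≤ y - b j by linarith [hy.1])]
    exact mul_le_mul_of_nonneg_left
      (by linarith [bump_anti hη (sub_le_sub_left hxy (b (j + 1)))]) hN
  · have key : ∀ j ≤ w, (∑ i ∈ Finset.range j, k i : ℕ) * π ≤ φ (b j) := by
      intro j
      induction j with
      | zero => intro _; simp [hb0, h0]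
      | succ j ih =>
        intro hj
        have hL := hm hj
        have h1 := h.up hV one_pos _ (y := b j + 2 * η) (hbn j) (by linarith)
          (by linarith [hb j]) (ih (by omega))
        have h2 := h.grow' (N := 0) (x := b j + 2 * η) (y := b (j + 1) - 2 * η) one_pos le_rfl
          (by linarith [hbn j]) (by linarith [hb j]) (by linarith) fun t ht => by
            rw [hVe j hj t ⟨by linarith [ht.1], by linarith [ht.2]⟩,
              bump_zero hη (show 2 * η ≤ t - b j by linarith [ht.1]),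
              bump_zero hη (show 2 * η ≤ b (j + 1) - t by linarith [ht.2])]
            simp
        refine h.up hV one_pos _ (x := b (j + 1) - 2 * η) (by linarith [hbn j, hb j])
          (by linarith) hL ?_
        rw [Finset.sum_range_succ, Nat.cast_add]
        have := hbs j
        linarith
    exact key w le_rfl
  · have key : ∀ j ≤ w, Φ (b j) ≤ (∑ i ∈ Finset.range j, ⌊τ * k i⌋₊ : ℕ) * π + ε := by
      intro j
      induction j with
      | zero => intro _; simp [hb0, H0, hε.le]
      | succ j ih =>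
        intro hj
        have hL := hm hj
        have h1 := H.grow hV hτ0 (y := b (j + 1) - η) (hbn j) (by linarith [hb j]) (by linarith)
        have h2 := ih (by omega)
        have h3 := mul_le_mul_of_nonneg_right (hγ2 j hj) hpi.le
        have h4 := plateau (ε := ε) (s := π / η) hV hτ0
          ((H.mono (a' := b (j + 1) - η) (by linarith [hbn j, hb j]) hL).shift
            (∑ i ∈ Finset.range (j + 1), ⌊τ * k i⌋₊)) (by linarith) hε.le (by linarith)
          (by positivity) (by rw [sub_sub_cancel, div_mul_cancel₀ _ hη.ne'])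
          (fun t ht => by
            rw [hVe j hj t ⟨by linarith [ht.1, hb j], ht.2⟩,
              bump_zero hη (show 2 * η ≤ t - b j by linarith [ht.1, hb j]),
              bump_one hη (show b (j + 1) - t ≤ η by linarith [ht.1]), zero_add, mul_one, hN2])
          (by
            rw [Finset.sum_range_succ, Nat.cast_add]
            have e : τ * (b (j + 1) - η - b j) = τ * k j * π + 3 * (τ * η) := by
              rw [hbs j]; ring
            linarith)
        linarith
    have := key w le_rfl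
    rw [Nat.cast_add]
    simp only [Nat.cast_one]
    linarith

end Pool.Agent.Lib.MP_6547d0_mp
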