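import Pool.Agent.Lib.MP_6547d0_mp.Fence
import Pool.Agent.Lib.MP_6547d0_mp.Defs

/-! The Dirichlet spectrum described by the scaled Pruefer phase. -/

set_option autoImplicit false

namespace Pool.Agent.Lib.MP_6547d0_mp

open Set Filter Topology Real

theorem eig_pos {V : ℝ → ℝ} {M L μ : ℝ} (hV : Bd V M) (hL : 0 < L) (h : IsEig L V μ) : 0 < μ := by
  obtain ⟨y, hc, h0, h1, hd, hd2, he, x, hx, hx0⟩ := h
  by_contra hμ
  push Not at hμ
  have d1 : ∀ t ∈ Ioo 0 L, HasDerivAt y (deriv y t) t := fun t ht =>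
    (hd.differentiableAt (isOpen_Ioo.mem_nhds ht)).hasDerivAt
  have d2 : ∀ t ∈ Ioo 0 L, HasDerivAt (deriv y) (deriv (deriv y) t) t := fun t ht =>
    (hd2.differentiableAt (isOpen_Ioo.mem_nhds ht)).hasDerivAt
  have hcv : ConvexOn ℝ (Icc 0 L) (fun t => y t * y t) :=
    convexOn_of_hasDerivWithinAt2_nonneg (f' := fun t => deriv y t * y t + y t * deriv y t)
      (f'' := fun t => (deriv (deriv y) t * y t + deriv y t * deriv y t)
        + (deriv y t * deriv y t + y t * deriv (deriv y) t))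
      (convex_Icc 0 L) (hc.mul hc)
      (fun t ht => by
        rw [interior_Icc] at ht
        exact ((d1 t ht).mul (d1 t ht)).hasDerivWithinAt)
      (fun t ht => by
        rw [interior_Icc] at ht
        exact (((d2 t ht).mul (d1 t ht)).add ((d1 t ht).mul (d2 t ht))).hasDerivWithinAt)
      (fun t ht => by
        rw [interior_Icc] at ht
        have e : deriv (deriv y) t = (V t - μ) * y t := by linarith [he t ht]
        have := mul_nonneg (show 0 ≤ V t - μ by linarith [(hV.2 t).1]) (mul_self_nonneg (y t))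
        rw [e]
        nlinarith [mul_self_nonneg (deriv y t)])
  have := hcv.le_max_of_mem_Icc ⟨le_rfl, hL.le⟩ ⟨hL.le, le_rfl⟩ (Ioo_subset_Icc_self hx)
  simp only [h0, h1, mul_zero, max_self] at this
  exact absurd (mul_self_pos.2 hx0) (not_lt.2 this)

theorem exists_rho {V φ : ℝ → ℝ} {M z L : ℝ} (hV : Bd V M) (hL : 0 < L) (h : Ph V z φ 0 L) :
    ∃ ρ : ℝ → ℝ, (∀ x, 0 < ρ x) ∧
      ∀ x ∈ Icc 0 L, HasDerivAt ρ (ρ x * (V x / z * (sin (φ x) * cos (φ x)))) x := by
  have c1 : Continuous fun t => φ (max 0 (min t L)) :=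
    h.cont.comp_continuous (by fun_prop) fun t =>
      ⟨le_max_left _ _, max_le hL.le (min_le_right _ _)⟩
  have c2 := hV.1
  have c3 : Continuous fun t => V t / z * (sin (φ (max 0 (min t L))) * cos (φ (max 0 (min t L)))) :=
    (c2.div_const z).mul ((continuous_sin.comp c1).mul (continuous_cos.comp c1))
  refine ⟨fun x => exp (∫ t in (0 : ℝ)..x,
    V t / z * (sin (φ (max 0 (min t L))) * cos (φ (max 0 (min t L))))), fun x => exp_pos _,
    fun x hx => ?_⟩
  have := (c3.integral_hasStrictDerivAt 0 x).hasDerivAt.exp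
  rwa [min_eq_left hx.2, max_eq_right hx.1] at this

theorem eig_of_ph {V φ : ℝ → ℝ} {M z L : ℝ} (hV : Bd V M) (hz : 0 < z) (hL : 0 < L)
    (h : Ph V z φ 0 L) (h0 : φ 0 = 0) (h1 : sin (φ L) = 0) : IsEig L V (z ^ 2) := by
  obtain ⟨ρ, hρ, hd⟩ := exists_rho hV hL h
  have d1 : ∀ x ∈ Icc 0 L, HasDerivAt (fun x => ρ x * sin (φ x)) (z * (ρ x * cos (φ x))) x :=
    fun x hx => by
      refine HasDerivAt.congr_deriv ((hd x hx).mul (h x hx).sin) ?_
      ring
  have d2 : ∀ x ∈ Icc 0 L, HasDerivAt (fun x => z * (ρ x * cos (φ x)))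
      ((V x - z ^ 2) * (ρ x * sin (φ x))) x := fun x hx => by
    refine HasDerivAt.congr_deriv (((hd x hx).mul (h x hx).cos).const_mul z) ?_
    have := sin_sq_add_cos_sq (φ x)
    field_simp
    linear_combination (V x * ρ x * sin (φ x)) * this
  have d3 : ∀ x ∈ Ioo 0 L, HasDerivAt (deriv fun x => ρ x * sin (φ x))
      ((V x - z ^ 2) * (ρ x * sin (φ x))) x := fun x hx => by
    refine (d2 x (Ioo_subset_Icc_self hx)).congr_of_eventuallyEq ?_
    filter_upwards [isOpen_Ioo.mem_nhds hx] with t ht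
    exact (d1 t (Ioo_subset_Icc_self ht)).deriv
  refine ⟨fun x => ρ x * sin (φ x), fun x hx => (d1 x hx).continuousAt.continuousWithinAt,
    by simp [h0], by simp [h1],
    fun x hx => (d1 x (Ioo_subset_Icc_self hx)).differentiableAt.differentiableWithinAt,
    fun x hx => (d3 x hx).differentiableAt.differentiableWithinAt,
    fun x hx => by rw [(d3 x hx).deriv]; ring, ?_⟩
  by_contra hn
  push Not at hn
  have hx : L / 2 ∈ Ioo 0 L := ⟨by linarith, by linarith⟩
  have e1 : HasDerivAt (fun x => ρ x * sin (φ x)) 0 (L / 2) := by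
    refine (hasDerivAt_const (L / 2) (0 : ℝ)).congr_of_eventuallyEq ?_
    filter_upwards [isOpen_Ioo.mem_nhds hx] with t ht
    exact hn t ht
  have e2 := (d1 _ (Ioo_subset_Icc_self hx)).unique e1
  have e3 := hn _ hx
  have hp := (hρ (L / 2)).ne'
  have e4 : cos (φ (L / 2)) = 0 := by simpa [hz.ne', hp] using e2
  have e5 : sin (φ (L / 2)) = 0 := by simpa [hp] using e3
  have := sin_sq_add_cos_sq (φ (L / 2))
  rw [e4, e5] at this
  norm_num at this

theorem const_of {f : ℝ → ℝ} {L : ℝ} (h : ∀ x ∈ Ioo 0 L, HasDerivAt f 0 x) {x y : ℝ}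
    (hx : x ∈ Ioo 0 L) (hy : y ∈ Ioo 0 L) : f x = f y :=
  isOpen_Ioo.is_const_of_deriv_eq_zero isPreconnected_Ioo
    (fun t ht => (h t ht).differentiableAt.differentiableWithinAt)
    (fun t ht => (h t ht).deriv) hx hy

theorem ph_of_eig {V φ : ℝ → ℝ} {M z L : ℝ} (hV : Bd V M) (hz : 0 < z) (hL : 0 < L)
    (h : Ph V z φ 0 L) (hφ : φ 0 = 0) (hE : IsEig L V (z ^ 2)) : sin (φ L) = 0 := by
  obtain ⟨ρ, hρ, hr⟩ := exists_rho hV hL h
  obtain ⟨y, hc, h0, h1, hd, hd2, he, x0, hx0, hy0⟩ := hE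
  have d1 : ∀ t ∈ Ioo 0 L, HasDerivAt y (deriv y t) t := fun t ht =>
    (hd.differentiableAt (isOpen_Ioo.mem_nhds ht)).hasDerivAt
  have d2 : ∀ t ∈ Ioo 0 L, HasDerivAt (deriv y) ((V t - z ^ 2) * y t) t := fun t ht => by
    refine HasDerivAt.congr_deriv (hd2.differentiableAt (isOpen_Ioo.mem_nhds ht)).hasDerivAt ?_
    linarith [he t ht]
  have dW : ∀ t ∈ Ioo 0 L, HasDerivAt
      (fun t => ρ t * (z * y t * cos (φ t) - deriv y t * sin (φ t))) 0 t := fun t ht => by
    have ht' := Ioo_subset_Icc_self ht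
    refine HasDerivAt.congr_deriv ((hr t ht').mul (((((d1 t ht).const_mul z).mul
      (h t ht').cos)).sub ((d2 t ht).mul (h t ht').sin))) ?_
    have := sin_sq_add_cos_sq (φ t)
    have e : V t / z * z = V t := by field_simp
    set u := V t / z
    rw [← e]
    linear_combination (u * ρ t * y t * z * sin (φ t)) * this
  have cρ : ContinuousOn ρ (Icc 0 L) := fun x hx => (hr x hx).continuousAt.continuousWithinAt
  obtain ⟨R, hR⟩ := isCompact_Icc.exists_bound_of_continuousOn cρ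
  have hW : ∀ t ∈ Ioo 0 L, z * y t * cos (φ t) - deriv y t * sin (φ t) = 0 := by
    intro t ht
    have hR0 : 0 < R := by
      have := hR 0 ⟨le_rfl, hL.le⟩
      rw [Real.norm_eq_abs, abs_of_pos (hρ 0)] at this
      exact (hρ 0).trans_le this
    have hb : ∀ ε, 0 < ε → |ρ t * (z * y t * cos (φ t) - deriv y t * sin (φ t))|
        ≤ 2 * R * z * ε := by
      intro ε hε
      obtain ⟨δ, hδ, hδ2⟩ := Metric.continuousWithinAt_iff.1 (hc 0 ⟨le_rfl, hL.le⟩) ε hε
      have hs : ∀ s, 0 < s → s ≤ min (δ / 2) (L / 2) → s ∈ Ioo 0 L ∧ |y s| ≤ ε := fun s h1 h2 => by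
        have h3 := h2.trans (min_le_left _ _)
        have h4 := h2.trans (min_le_right _ _)
        refine ⟨⟨h1, by linarith⟩, ?_⟩
        have := hδ2 (x := s) ⟨h1.le, by linarith⟩ (by
          rw [Real.dist_eq, sub_zero, abs_of_pos h1]; linarith)
        rw [Real.dist_eq, h0, sub_zero] at this
        exact this.le
      set x := min (δ / 2) (L / 2)
      have hx : 0 < x := lt_min (by linarith) (by linarith)
      obtain ⟨hxI, hxε⟩ := hs x hx le_rfl
      obtain ⟨ξ, hξ, hξ2⟩ := exists_hasDerivAt_eq_slope y (deriv y) hx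
        (hc.mono (Icc_subset_Icc le_rfl hxI.2.le))
        (fun s hs => d1 s ⟨hs.1, hs.2.trans hxI.2⟩)
      obtain ⟨hξI, hξε⟩ := hs ξ hξ.1 hξ.2.le
      rw [const_of dW ht hξI, abs_mul]
      have b1 : |ρ ξ| ≤ R := hR ξ (Ioo_subset_Icc_self hξI)
      have b2 : |z * y ξ * cos (φ ξ)| ≤ z * ε := by
        rw [abs_mul, abs_mul, abs_of_pos hz]
        have := mul_le_mul (mul_le_mul_of_nonneg_left hξε hz.le) (abs_cos_le_one (φ ξ))
          (abs_nonneg _) (by positivity)
        linarith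
      have b3 : |deriv y ξ * sin (φ ξ)| ≤ z * ε := by
        have g1 := h.grow hV hz le_rfl hξ.1.le hξI.2.le
        have g2 := h.up hV hz 0 le_rfl hξ.1.le hξI.2.le (by simp [hφ])
        simp only [hφ, Nat.cast_zero, zero_mul, zero_add, sub_zero] at g1 g2
        have g3 : |sin (φ ξ)| ≤ z * x := by
          refine abs_sin_le_abs.trans ?_
          rw [abs_of_nonneg g2]
          exact g1.trans (mul_le_mul_of_nonneg_left hξ.2.le hz.le)
        rw [abs_mul, hξ2, h0, sub_zero, sub_zero, abs_div, abs_of_pos hx]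
        have g4 : |y x| / x ≤ ε / x := div_le_div_of_nonneg_right hxε hx.le
        have := mul_le_mul g4 g3 (abs_nonneg _) (by positivity)
        have e : ε / x * (z * x) = z * ε := by field_simp
        linarith
      have b4 := (abs_sub (z * y ξ * cos (φ ξ)) (deriv y ξ * sin (φ ξ))).trans (add_le_add b2 b3)
      have := mul_le_mul b1 b4 (abs_nonneg _) hR0.le
      linarith
    have : ρ t * (z * y t * cos (φ t) - deriv y t * sin (φ t)) = 0 := by
      by_contra hne
      have hp := abs_pos.2 hne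
      have := hb (|ρ t * (z * y t * cos (φ t) - deriv y t * sin (φ t))| / (4 * R * z))
        (by positivity)
      set A := |ρ t * (z * y t * cos (φ t) - deriv y t * sin (φ t))|
      have e : 2 * R * z * (A / (4 * R * z)) = A / 2 := by field_simp; ring
      linarith
    exact (mul_eq_zero.1 this).resolve_left (hρ t).ne'
  have dC : ∀ t ∈ Ioo 0 L, HasDerivAt
      (fun t => (z * y t * sin (φ t) + deriv y t * cos (φ t)) / ρ t) 0 t := fun t ht => by
    have ht' := Ioo_subset_Icc_self ht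
    refine HasDerivAt.congr_deriv ((((((d1 t ht).const_mul z).mul
      (h t ht').sin)).add ((d2 t ht).mul (h t ht').cos)).div (hr t ht') (hρ t).ne') ?_
    have h1 := sin_sq_add_cos_sq (φ t)
    have h2 := hW t ht
    simp only [Pi.add_apply, Pi.mul_apply]
    rw [div_eq_zero_iff]
    left
    have e : V t / z * z = V t := by field_simp
    set u := V t / z
    rw [← e]
    linear_combination (ρ t * (u * cos (φ t) ^ 2 - u * sin (φ t) ^ 2)) * h2
      - (ρ t * u * z * y t * cos (φ t)) * h1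
  set c0 := (z * y x0 * sin (φ x0) + deriv y x0 * cos (φ x0)) / ρ x0 with hc0
  have hE : EqOn (fun t => z * y t) (fun t => c0 * ρ t * sin (φ t)) (Ioo 0 L) := fun t ht => by
    have e := const_of dC ht hx0
    have h1 := sin_sq_add_cos_sq (φ t)
    have h2 := hW t ht
    simp only [← hc0] at e
    rw [div_eq_iff (hρ t).ne'] at e
    simp only [← e]
    linear_combination cos (φ t) * h2 - z * y t * h1
  have hc1 : c0 ≠ 0 := fun e => by
    have := hE hx0
    simp only [e, zero_mul] at this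
    exact (mul_ne_zero hz.ne' hy0) this
  have := hE.of_subset_closure (continuousOn_const.mul hc)
    ((continuousOn_const.mul cρ).mul (continuous_sin.comp_continuousOn h.cont))
    Ioo_subset_Icc_self (by rw [closure_Ioo hL.ne]) ⟨hL.le, le_rfl⟩
  simp only [h1, mul_zero] at this
  exact (mul_eq_zero.1 this.symm).resolve_left (mul_ne_zero hc1 (hρ L).ne')

theorem spec {V : ℝ → ℝ} {M L : ℝ} (hV : Bd V M) (hL : 0 < L) :
    ∃ (e : ℕ → ℝ) (φ : ℝ → ℝ → ℝ), (∀ z, 0 < z → φ z 0 = 0 ∧ Ph V z (φ z) 0 L) ∧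
      (∀ i, 0 < e i ∧ φ (e i) L = (i + 1 : ℕ) * π) ∧
      ∀ n a, IsNth L V n a ↔ ∃ i, n = i + 1 ∧ a = e i ^ 2 := by
  have hM : 0 ≤ M := (hV.2 0).1.trans (hV.2 0).2
  have hpi := pi_pos
  have hex : ∀ z : ℝ, 0 < z → ∃ φ : ℝ → ℝ, φ 0 = 0 ∧ Ph V z φ 0 L := fun z hz =>
    exists_ph hV hz hL.le
  choose! φ h0 hφ using hex
  have hlt : ∀ z Z, 0 < z → z < Z → φ z L < φ Z L := fun z Z hz hZ =>
    ph_lt hV hz hZ hL (hφ z hz) (hφ Z (hz.trans hZ)) (h0 z hz) (h0 Z (hz.trans hZ))
  have hlt' : ∀ z Z, 0 < z → 0 < Z → φ z L < φ Z L → z < Z := fun z Z hz hZ h => by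
    by_contra h1
    rcases (not_lt.1 h1).eq_or_lt with e | e
    · rw [e] at h; exact lt_irrefl _ h
    · linarith [hlt Z z hZ e]
  have hpos : ∀ z, 0 < z → 0 < φ z L := fun z hz => by
    have h2 : 0 < z / 2 := by linarith
    have := (hφ _ h2).up hV h2 0 le_rfl hL.le le_rfl (by simp [h0 _ h2])
    have := hlt (z / 2) z h2 (by linarith)
    simp only [Nat.cast_zero, zero_mul] at *
    linarith
  have hee : ∀ i : ℕ, ∃ z, 0 < z ∧ φ z L = (i + 1 : ℕ) * π := fun i => by
    have hr : 0 < π / L := by positivity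
    have hi : (1 : ℝ) ≤ (i + 1 : ℕ) := by exact_mod_cast Nat.succ_le_succ (Nat.zero_le i)
    have hq : π / L ≤ (i + 1 : ℕ) * π / L :=
      div_le_div_of_nonneg_right (by nlinarith) hL.le
    have hrR : π / L ≤ (i + 1 : ℕ) * π / L + M + 1 := by linarith
    have hC : 0 ≤ (1 + M / (π / L) ^ 2) * exp ((M / (π / L) + 1) * L) := by positivity
    have hcont : ContinuousOn (fun z => φ z L) (Icc (π / L) ((i + 1 : ℕ) * π / L + M + 1)) := by
      refine (LipschitzOnWith.of_dist_le_mul (K := NNReal.mk _ hC) fun z hz Z hZ => ?_).continuousOn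
      have key : ∀ z Z, π / L ≤ z → z ≤ Z → |φ z L - φ Z L| ≤
          (1 + M / (π / L) ^ 2) * exp ((M / (π / L) + 1) * L) * |z - Z| := fun z Z hz hZ => by
        have hz0 := hr.trans_le hz
        have hZ0 := hz0.trans_le hZ
        have h1 := ph_le_add hV hr hz hZ hL (hφ z hz0) (hφ Z hZ0) (h0 z hz0) (h0 Z hZ0)
        have h2 : φ z L ≤ φ Z L := by
          rcases hZ.eq_or_lt with e | e
          · rw [e]
          · exact (hlt z Z hz0 e).le
        rwa [abs_sub_comm, abs_of_nonneg (sub_nonneg.2 h2), abs_sub_comm,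
          abs_of_nonneg (sub_nonneg.2 hZ)]
      rw [Real.dist_eq, Real.dist_eq, NNReal.coe_mk]
      rcases le_total z Z with h | h
      · exact key z Z hz.1 h
      · rw [abs_sub_comm, abs_sub_comm z]
        exact key Z z hZ.1 h
    have g1 := (hφ _ hr).grow hV hr le_rfl hL.le le_rfl
    have hR := hr.trans_le hrR
    have g2 := (hφ _ hR).grow' hR hM le_rfl hL.le le_rfl fun t _ => (hV.2 t).2
    rw [h0 _ hr] at g1
    rw [h0 _ hR] at g2
    have e1 : π / L * (L - 0) = π := by field_simp; ring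
    have g3 : M / ((i + 1 : ℕ) * π / L + M + 1) ≤ M := div_le_self hM (by linarith)
    have e2 : (i + 1 : ℕ) * π / L * L = (i + 1 : ℕ) * π := by field_simp
    obtain ⟨z, hz, hz2⟩ := intermediate_value_Icc hrR hcont
      (show (i + 1 : ℕ) * π ∈ Icc (φ _ L) (φ _ L) from ⟨by nlinarith, by nlinarith⟩)
    exact ⟨z, hr.trans_le hz.1, hz2⟩
  choose e he0 he using hee
  have hmono : StrictMono fun i => e i ^ 2 := fun i j hij => by
    have : e i < e j := hlt' _ _ (he0 i) (he0 j) (by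
      rw [he, he]
      exact mul_lt_mul_of_pos_right (by exact_mod_cast Nat.succ_lt_succ hij) hpi)
    exact pow_lt_pow_left₀ this (he0 i).le two_ne_zero
  have hE : ∀ μ, IsEig L V μ ↔ ∃ i, μ = e i ^ 2 := fun μ => by
    refine ⟨fun h => ?_, ?_⟩
    · have hμ := eig_pos hV hL h
      have hz := Real.sqrt_pos.2 hμ
      have hs := Real.sq_sqrt hμ.le
      obtain ⟨j, hj⟩ := sin_eq_zero_iff.1
        (ph_of_eig hV hz hL (hφ _ hz) (h0 _ hz) (by rwa [hs]))
      have hj0 : (0 : ℝ) < j := (mul_pos_iff_of_pos_right hpi).1 (hj ▸ hpos _ hz)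
      have hj1 : 0 < j := by exact_mod_cast hj0
      obtain ⟨i, rfl⟩ : ∃ i : ℕ, j = (i + 1 : ℕ) := ⟨j.toNat - 1, by omega⟩
      have e1 : φ √μ L = φ (e i) L := by rw [he, ← hj]; simp
      refine ⟨i, ?_⟩
      rcases lt_trichotomy √μ (e i) with h1 | h1 | h1
      · linarith [hlt _ _ hz h1]
      · rw [← h1, hs]
      · linarith [hlt _ _ (he0 i) h1]
    · rintro ⟨i, rfl⟩
      exact eig_of_ph hV (he0 i) hL (hφ _ (he0 i)) (h0 _ (he0 i)) (by rw [he, sin_nat_mul_pi])
  have hcard : ∀ j, {μ | IsEig L V μ ∧ μ < e j ^ 2}.encard = j := fun j => by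
    have : {μ | IsEig L V μ ∧ μ < e j ^ 2} = (fun i => e i ^ 2) '' (Finset.range j : Set ℕ) := by
      ext μ
      simp only [mem_ofPred_eq, mem_image, Finset.coe_range, mem_Iio, hE]
      constructor
      · rintro ⟨⟨i, rfl⟩, h⟩
        exact ⟨i, hmono.lt_iff_lt.1 h, rfl⟩
      · rintro ⟨i, h, rfl⟩
        exact ⟨⟨i, rfl⟩, hmono h⟩
    rw [this, hmono.injective.injOn.encard_image, encard_coe_eq_coe_finsetCard, Finset.card_range]
  refine ⟨e, φ, fun z hz => ⟨h0 z hz, hφ z hz⟩, fun i => ⟨he0 i, he i⟩, fun n a => ⟨?_, ?_⟩⟩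
  · rintro ⟨h1, h2⟩
    obtain ⟨i, rfl⟩ := (hE a).1 h1
    rw [hcard] at h2
    exact ⟨i, by exact_mod_cast h2.symm, rfl⟩
  · rintro ⟨i, rfl, rfl⟩
    exact ⟨(hE _).2 ⟨i, rfl⟩, by rw [hcard]; simp⟩

end Pool.Agent.Lib.MP_6547d0_mp
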