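import Pool.Agent.Lib.MP_6547d0_mp.Fence

/-! Time of flight in a constant potential and the key trigonometric inequality. -/

set_option autoImplicit false

namespace Pool.Agent.Lib.MP_6547d0_mp

open Set Filter Topology Real

/-- the branch of `arctan (a tan t)` through the multiples of `π / 2` -/
noncomputable def PP (a t : ℝ) : ℝ :=
  t + arctan ((a - 1) * (sin t * cos t) / (cos t ^ 2 + a * sin t ^ 2))

theorem den_pos {a : ℝ} (ha : 0 < a) (t : ℝ) : 0 < cos t ^ 2 + a * sin t ^ 2 := by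
  have h := sin_sq_add_cos_sq t
  rcases le_total a 1 with h1 | h1
  · nlinarith [sq_nonneg (cos t), sq_nonneg (sin t)]
  · nlinarith [sq_nonneg (cos t), sq_nonneg (sin t)]

theorem PP_zero (a : ℝ) : PP a 0 = 0 := by simp [PP]

theorem PP_one (t : ℝ) : PP 1 t = t := by simp [PP]

theorem one_add_sq {a : ℝ} (ha : 0 < a) (t : ℝ) :
    1 + ((a - 1) * (sin t * cos t) / (cos t ^ 2 + a * sin t ^ 2)) ^ 2
      = (cos t ^ 2 + a ^ 2 * sin t ^ 2) / (cos t ^ 2 + a * sin t ^ 2) ^ 2 := by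
  have h := sin_sq_add_cos_sq t
  have h1 := (den_pos ha t).ne'
  field_simp
  linear_combination (cos t ^ 2 + a ^ 2 * sin t ^ 2) * h

theorem PP_deriv {a : ℝ} (ha : 0 < a) (t : ℝ) :
    HasDerivAt (PP a) (a / (cos t ^ 2 + a ^ 2 * sin t ^ 2)) t := by
  have h := sin_sq_add_cos_sq t
  have h1 := (den_pos ha t).ne'
  have h2 := (den_pos (pow_pos ha 2) t).ne'
  have d1 := ((hasDerivAt_sin t).mul (hasDerivAt_cos t)).const_mul (a - 1)
  have d2 := ((hasDerivAt_cos t).pow 2).add (((hasDerivAt_sin t).pow 2).const_mul a)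
  have d3 := (hasDerivAt_id t).add (d1.div d2 h1).arctan
  refine HasDerivAt.congr_deriv d3 ?_
  simp only [Pi.mul_apply, Pi.add_apply, Pi.pow_apply, Pi.div_apply]
  rw [one_add_sq ha]
  field_simp
  norm_num
  linear_combination (a + (a - 1) * (cos t ^ 2 - a * sin t ^ 2)) * h

theorem PP_deriv_a {a : ℝ} (ha : 0 < a) (t : ℝ) :
    HasDerivAt (fun a => PP a t) (sin t * cos t / (cos t ^ 2 + a ^ 2 * sin t ^ 2)) a := by
  have h := sin_sq_add_cos_sq t
  have h1 := (den_pos ha t).ne'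
  have h2 := (den_pos (pow_pos ha 2) t).ne'
  have d1 := ((hasDerivAt_id a).sub_const 1).mul_const (sin t * cos t)
  have d2 := ((hasDerivAt_id a).mul_const (sin t ^ 2)).const_add (cos t ^ 2)
  have d3 := (d1.div d2 h1).arctan.const_add t
  refine HasDerivAt.congr_deriv d3 ?_
  simp only [id, Pi.div_apply]
  rw [one_add_sq ha]
  field_simp
  linear_combination (sin t * cos t) * h

theorem sc_PP {a : ℝ} (ha : 0 < a) (t : ℝ) :
    sin (PP a t) * cos (PP a t) = a * (sin t * cos t / (cos t ^ 2 + a ^ 2 * sin t ^ 2)) := by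
  have h := sin_sq_add_cos_sq t
  have h1 := (den_pos ha t).ne'
  have h2 := (den_pos (pow_pos ha 2) t).ne'
  have h3 := one_add_sq ha t
  unfold PP
  set q := (a - 1) * (sin t * cos t) / (cos t ^ 2 + a * sin t ^ 2) with hq
  have hp : 0 < 1 + q ^ 2 := by positivity
  have hs := Real.sq_sqrt hp.le
  have hs0 : √(1 + q ^ 2) ≠ 0 := (Real.sqrt_pos.2 hp).ne'
  have e : sin (t + arctan q) * cos (t + arctan q)
      = (sin t + cos t * q) * (cos t - sin t * q) / (1 + q ^ 2) := by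
    rw [sin_add, cos_add, sin_arctan, cos_arctan]
    conv_rhs => rw [← hs]
    field_simp
  have e1 : sin t + cos t * q = a * sin t / (cos t ^ 2 + a * sin t ^ 2) := by
    rw [eq_div_iff h1, add_mul, mul_assoc, hq, div_mul_cancel₀ _ h1]
    linear_combination (a * sin t) * h
  have e2 : cos t - sin t * q = cos t / (cos t ^ 2 + a * sin t ^ 2) := by
    rw [eq_div_iff h1, sub_mul, mul_assoc, hq, div_mul_cancel₀ _ h1]
    linear_combination (cos t) * h
  rw [e, e1, e2, h3]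
  field_simp

theorem PP_mono {a : ℝ} (ha : 0 < a) : Monotone (PP a) :=
  monotone_of_deriv_nonneg (fun t => (PP_deriv ha t).differentiableAt) fun t => by
    rw [(PP_deriv ha t).deriv]
    exact div_nonneg ha.le (den_pos (pow_pos ha 2) t).le

theorem PP_nonneg {a t : ℝ} (ha : 0 < a) (ht : 0 ≤ t) : 0 ≤ PP a t := by
  simpa [PP_zero] using PP_mono ha ht

theorem PP_le {a t : ℝ} (ha : 1 ≤ a) (ht : 0 ≤ t) : PP a t ≤ a * t := by
  have ha0 : 0 < a := by linarith
  have := fence' (K := 0) (a := 0) (b := t) (f := fun t => PP a t - a * t)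
    (f' := fun t => a / (cos t ^ 2 + a ^ 2 * sin t ^ 2) - a)
    (fun x _ => (PP_deriv ha0 x).sub (by simpa using (hasDerivAt_id x).const_mul a))
    (by simp [PP_zero]) (fun x _ _ => by
      have h := sin_sq_add_cos_sq x
      have : a / (cos x ^ 2 + a ^ 2 * sin x ^ 2) ≤ a := by
        refine div_le_self ha0.le ?_
        nlinarith [sq_nonneg (sin x), mul_nonneg (sq_nonneg (sin x)) (show 0 ≤ a ^ 2 - 1 by nlinarith)]
      linarith) t ⟨ht, le_rfl⟩
  linarith

/-- `HH w = w + sin w cos w` -/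
noncomputable def HH (w : ℝ) : ℝ := w + sin w * cos w

theorem sc_lip (x y : ℝ) : sin x * cos x - sin y * cos y ≤ |x - y| := by
  have h := abs_sin_sub_sin_le (2 * x) (2 * y)
  rw [sin_two_mul, sin_two_mul, ← mul_sub, abs_mul, abs_two] at h
  have := le_abs_self (2 * sin x * cos x - 2 * sin y * cos y)
  linarith

theorem HH_mono {x y : ℝ} (h : x ≤ y) : HH x ≤ HH y := by
  have := sc_lip x y
  rw [abs_sub_comm, abs_of_nonneg (sub_nonneg.2 h)] at this
  unfold HH; linarith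

theorem sc_ge {x : ℝ} (hx : 0 ≤ x) : x - 2 / 3 * x ^ 3 ≤ sin x * cos x := by
  have := sin_ge_sub_cube (x := 2 * x) (by linarith)
  rw [sin_two_mul] at this
  nlinarith

theorem sc_nonneg {x : ℝ} (hx : 0 ≤ x) (h2 : x ≤ π / 2) : 0 ≤ sin x * cos x :=
  mul_nonneg (sin_nonneg_of_nonneg_of_le_pi hx (by linarith [pi_pos]))
    (cos_nonneg_of_neg_pi_div_two_le_of_le (by linarith [pi_pos]) h2)

theorem sc_ge_half (x : ℝ) : -(1 / 2) ≤ sin x * cos x := by
  have := neg_one_le_sin (2 * x)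
  rw [sin_two_mul] at this
  linarith

theorem key_ineq {σ t β : ℝ} (hσ : 1 ≤ σ) (ht : 0 ≤ t) (hβ : 0 ≤ β) (hβ' : β ≤ (σ - 1) * π / 2) :
    HH (σ * t + β) - HH β ≤ σ ^ 3 * HH t := by
  have hpi := pi_gt_d2
  have hpi' := pi_lt_d2
  have hst : 0 ≤ σ * t := by positivity
  have h2 : HH (σ * t + β) - HH β ≤ 2 * (σ * t) := by
    have := sc_lip (σ * t + β) β
    rw [add_sub_cancel_right, abs_of_nonneg hst] at this
    unfold HH; linarith
  have hA : 2 * t ≤ σ ^ 2 * HH t → HH (σ * t + β) - HH β ≤ σ ^ 3 * HH t := fun h => by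
    have := mul_le_mul_of_nonneg_left h (show 0 ≤ σ by linarith)
    nlinarith
  rcases le_total 3 (σ ^ 2) with h3 | h3
  · apply hA
    have h4 : 2 / 3 * t ≤ HH t := by
      unfold HH
      rcases le_total t (π / 2) with h | h
      · linarith [sc_nonneg ht h]
      · linarith [sc_ge_half t]
    nlinarith
  obtain ⟨ε, rfl⟩ : ∃ ε, σ = 1 + ε := ⟨σ - 1, by ring⟩
  have hε : 0 ≤ ε := by linarith
  have hε' : ε ≤ 3 / 4 := by nlinarith
  rcases le_total t ε with h4 | h4
  · apply hA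
    have h5 := sc_ge ht
    have h6 : (1 + ε) ^ 2 * t ^ 2 ≤ 3 * ((1 + ε) ^ 2 - 1) := by
      have : t ^ 2 ≤ ε ^ 2 := by nlinarith
      nlinarith
    have h7 := mul_le_mul_of_nonneg_left h6 ht
    have h8 := mul_le_mul_of_nonneg_left h5 (sq_nonneg (1 + ε))
    unfold HH
    nlinarith
  have h5 := sc_lip ((1 + ε) * t + β) t
  rw [abs_of_nonneg (by nlinarith)] at h5
  have h6 := sc_ge hβ
  have h7 : β ^ 3 ≤ (79 / 50 * ε) ^ 3 := pow_le_pow_left₀ hβ (by nlinarith) 3
  have h8 : 0 ≤ (1 + 3 * ε + ε ^ 2) * t + (3 + 3 * ε + ε ^ 2) * (sin t * cos t)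
      - 27 / 10 * ε ^ 2 := by
    rcases le_total t (π / 2) with h | h
    · have := sc_nonneg ht h
      nlinarith [mul_nonneg hε (sub_nonneg.2 h4), mul_nonneg (sq_nonneg ε) ht,
        mul_nonneg (show 0 ≤ 3 + 3 * ε + ε ^ 2 by positivity) this]
    · have h9 := mul_le_mul_of_nonneg_left (sc_ge_half t)
        (show 0 ≤ 3 + 3 * ε + ε ^ 2 by positivity)
      have h10 := mul_le_mul_of_nonneg_left (show 157 / 100 ≤ t by linarith)
        (show 0 ≤ 1 + 3 * ε + ε ^ 2 by positivity)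
      nlinarith
  have h9 := mul_nonneg hε h8
  have h10 : 0 ≤ ε ^ 3 := by positivity
  unfold HH
  nlinarith

/-- time of flight from phase `π / 2` to phase `π / 2 + s` in the constant potential `v` -/
noncomputable def AA (z v s : ℝ) : ℝ := PP (z / √(z ^ 2 - v)) s / √(z ^ 2 - v)

theorem AA_zero (z v : ℝ) : AA z v 0 = 0 := by simp [AA, PP_zero]

theorem AA_free {z : ℝ} (hz : 0 < z) (s : ℝ) : AA z 0 s = s / z := by
  simp [AA, Real.sqrt_sq hz.le, hz.ne', PP_one]

theorem AA_mono {z v s t : ℝ} (hz : 0 < z) (hv : v < z ^ 2) (h : s ≤ t) : AA z v s ≤ AA z v t := by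
  have hk : 0 < √(z ^ 2 - v) := Real.sqrt_pos.2 (by linarith)
  exact div_le_div_of_nonneg_right (PP_mono (div_pos hz hk) h) hk.le

theorem AA_deriv {z v : ℝ} (hz : 0 < z) (hv : v < z ^ 2) (s : ℝ) :
    ∃ d, 0 < d ∧ d * (z - v / z * cos s ^ 2) = 1 ∧ HasDerivAt (AA z v) d s := by
  have hk : 0 < √(z ^ 2 - v) := Real.sqrt_pos.2 (by linarith)
  have hs := Real.sq_sqrt (show 0 ≤ z ^ 2 - v by linarith)
  have ha := div_pos hz hk
  have h2 := den_pos (pow_pos ha 2) s
  refine ⟨_, div_pos (div_pos ha h2) hk, ?_, (PP_deriv ha s).div_const _⟩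
  have h := sin_sq_add_cos_sq s
  set k := √(z ^ 2 - v)
  have hv' : v = z ^ 2 - k ^ 2 := by linarith
  have e : z - v / z * cos s ^ 2 = k ^ 2 / z * (cos s ^ 2 + (z / k) ^ 2 * sin s ^ 2) := by
    rw [hv']
    field_simp
    linear_combination (-z ^ 2) * h
  rw [e]
  set D := cos s ^ 2 + (z / k) ^ 2 * sin s ^ 2
  field_simp

theorem AA_deriv_v {z v : ℝ} (hz : 0 < z) (hv : v < z ^ 2) (s : ℝ) :
    HasDerivAt (fun v => AA z v s)
      (HH (PP (z / √(z ^ 2 - v)) s) / (2 * √(z ^ 2 - v) ^ 3)) v := by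
  have hk : 0 < √(z ^ 2 - v) := Real.sqrt_pos.2 (by linarith)
  have ha := div_pos hz hk
  have h2 := (den_pos (pow_pos ha 2) s).ne'
  have d1 : HasDerivAt (fun v => √(z ^ 2 - v)) (-1 / (2 * √(z ^ 2 - v))) v :=
    ((hasDerivAt_id v).const_sub (z ^ 2)).sqrt (show z ^ 2 - v ≠ 0 by linarith)
  have d2 := (hasDerivAt_const v z).div d1 hk.ne'
  have d3 := ((PP_deriv_a ha s).comp v d2).div d1 hk.ne'
  refine HasDerivAt.congr_deriv d3 ?_
  unfold HH
  rw [sc_PP ha]
  simp only [Function.comp, Pi.div_apply]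
  set D := cos s ^ 2 + (z / √(z ^ 2 - v)) ^ 2 * sin s ^ 2
  field_simp
  ring

theorem AA_cont {z : ℝ} {V s : ℝ → ℝ} {S : Set ℝ} (hz : 0 < z) (hV : ContinuousOn V S)
    (hs : ContinuousOn s S) (hv : ∀ x ∈ S, V x < z ^ 2) :
    ContinuousOn (fun x => AA z (V x) (s x)) S := by
  have hk : ∀ x ∈ S, 0 < √(z ^ 2 - V x) := fun x hx => Real.sqrt_pos.2 (by linarith [hv x hx])
  have c1 : ContinuousOn (fun x => √(z ^ 2 - V x)) S := by fun_prop
  have c2 : ContinuousOn (fun x => z / √(z ^ 2 - V x)) S :=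
    continuousOn_const.div c1 fun x hx => (hk x hx).ne'
  have c3 := continuous_sin.comp_continuousOn hs
  have c4 := continuous_cos.comp_continuousOn hs
  unfold AA PP
  refine ContinuousOn.div (hs.add (continuous_arctan.comp_continuousOn (ContinuousOn.div ?_ ?_
    fun x hx => (den_pos (div_pos hz (hk x hx)) _).ne'))) c1 fun x hx => (hk x hx).ne'
  · exact (c2.sub continuousOn_const).mul (c3.mul c4)
  · exact (c4.pow 2).add (c2.mul (c3.pow 2))

/-- the gap between the two times of flight -/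
noncomputable def GG (z Z v s S : ℝ) : ℝ :=
  AA z v s - AA Z v S + AA Z v ((Z / z - 1) * π / 2)

theorem GG_deriv_v {z Z v s : ℝ} (hz : 0 < z) (hZ : z ≤ Z) (hv0 : 0 ≤ v) (hv : v < z ^ 2)
    (hs : 0 ≤ s) (S : ℝ) :
    ∃ d, HasDerivAt (fun v => GG z Z v s S) d v ∧ (0 < GG z Z v s S → 0 ≤ d) := by
  have hZ0 : 0 < Z := hz.trans_le hZ
  have hv' : v < Z ^ 2 := by nlinarith
  refine ⟨_, ((AA_deriv_v hz hv s).sub (AA_deriv_v hZ0 hv' S)).add (AA_deriv_v hZ0 hv' _), ?_⟩
  intro hp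
  unfold GG AA at hp
  have hk : 0 < √(z ^ 2 - v) := Real.sqrt_pos.2 (by linarith)
  have hK : 0 < √(Z ^ 2 - v) := Real.sqrt_pos.2 (by linarith)
  have hk2 := Real.sq_sqrt (show 0 ≤ z ^ 2 - v by linarith)
  have hK2 := Real.sq_sqrt (show 0 ≤ Z ^ 2 - v by linarith)
  set k := √(z ^ 2 - v)
  set K := √(Z ^ 2 - v)
  have hkK : k ≤ K := by
    refine le_of_sq_le_sq ?_ hK.le
    nlinarith
  have hkz : k ≤ z := by
    refine le_of_sq_le_sq ?_ hz.le
    nlinarith
  have hKZ : K ≤ Z := by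
    refine le_of_sq_le_sq ?_ hZ0.le
    nlinarith
  have hx : Z * k ≤ z * K := by
    refine le_of_sq_le_sq ?_ (by positivity)
    rw [mul_pow, mul_pow, hk2, hK2]
    nlinarith [mul_nonneg hv0 (show 0 ≤ Z ^ 2 - z ^ 2 by nlinarith)]
  have hδ : 0 ≤ (Z / z - 1) * π / 2 := by
    have : 1 ≤ Z / z := (one_le_div hz).2 hZ
    have := pi_pos
    have : 0 ≤ (Z / z - 1) * π := mul_nonneg (by linarith) pi_pos.le
    linarith
  have ht := PP_nonneg (div_pos hz hk) hs
  have hβ := PP_nonneg (div_pos hZ0 hK) hδ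
  have hβ1 := PP_le ((one_le_div hK).2 hKZ) hδ
  have hβ2 : Z / K * (Z / z - 1) ≤ K / k - 1 := by
    have e1 : Z / K * (Z / z - 1) = Z * k * (Z - z) / (z * K * k) := by field_simp
    have e2 : K / k - 1 = z * K * (K - k) / (z * K * k) := by field_simp
    rw [e1, e2]
    refine div_le_div_of_nonneg_right ?_ (by positivity)
    have e3 : (K - k) * (K + k) = (Z - z) * (Z + z) := by nlinarith
    have h1 : Z * k * (Z - z) ≤ z * K * (Z - z) :=
      mul_le_mul_of_nonneg_right hx (sub_nonneg.2 hZ)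
    have h2 : Z - z ≤ K - k := by
      by_contra h
      push Not at h
      nlinarith
    exact h1.trans (mul_le_mul_of_nonneg_left h2 (by positivity))
  set t := PP (z / k) s
  set T := PP (Z / K) S
  set β := PP (Z / K) ((Z / z - 1) * π / 2)
  have hβ3 : β ≤ (K / k - 1) * π / 2 := by
    have := mul_le_mul_of_nonneg_right hβ2 pi_pos.le
    nlinarith
  have hI := key_ineq ((one_le_div hk).2 hkK) ht hβ hβ3
  have hT : T ≤ K / k * t + β := by
    have e : K / k * t + β - T = K * (t / k - T / K + β / K) := by field_simp; ring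
    have := mul_pos hK hp
    linarith
  have hH := HH_mono hT
  have e : HH t / (2 * k ^ 3) - HH T / (2 * K ^ 3) + HH β / (2 * K ^ 3)
      = ((K / k) ^ 3 * HH t - (HH T - HH β)) / (2 * K ^ 3) := by field_simp; ring
  rw [e]
  exact div_nonneg (by linarith) (by positivity)

/-- lowering the constant potential cannot create a positive gap -/
theorem GG_le {z Z v v' s : ℝ} (hz : 0 < z) (hZ : z ≤ Z) (hv0 : 0 ≤ v') (hv' : v' ≤ v)
    (hv : v < z ^ 2) (hs : 0 ≤ s) (S : ℝ) : GG z Z v' s S ≤ max (GG z Z v s S) 0 := by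
  have hd : ∀ y ∈ Icc (-v) (-v'), ∃ d, HasDerivAt (fun y => GG z Z (-y) s S - max (GG z Z v s S) 0)
      d y ∧ (0 < GG z Z (-y) s S - max (GG z Z v s S) 0 → d ≤ 0) := fun y hy => by
    obtain ⟨d, h1, h2⟩ := GG_deriv_v (v := -y) hz hZ (by linarith [hy.2]) (by linarith [hy.1]) hs S
    refine ⟨_, (h1.comp y (hasDerivAt_neg y)).sub_const _, fun hp => ?_⟩
    have := h2 (by linarith [le_max_right (GG z Z v s S) 0])
    linarith
  choose! d hd1 hd2 using hd
  have := fence' (K := 0) hd1 (by simp) (fun y hy hp => by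
    simpa using hd2 y (Ico_subset_Icc_self hy) hp) (-v') ⟨by linarith, le_rfl⟩
  simpa using this

end Pool.Agent.Lib.MP_6547d0_mp
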